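import Pool.Agent.TH974.IH.Geo

set_option autoImplicit false

open Finset MeasureTheory

/-! Many disjoint copies of a box: definitions. -/

namespace Pool.Agent.TH974.IH

/-- the large domain, made of `N^d` cells of side `L` -/
noncomputable def DD (d N L : ℕ) : Finset (Zd d) := cube d 0 ((N : ℤ) * L - 1)

/-- the interior of the large domain -/
noncomputable def BB (d N L : ℕ) : Finset (Zd d) := cube d 1 ((N : ℤ) * L - 2)

/-- edges with both endpoints in the large domain -/
def ED (d N L : ℕ) : Set (Ed d) := cedges d 0 ((N : ℤ) * L - 1)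

/-- the copy of the edge set `E` in the cell with index `z` -/
def tE {d N : ℕ} (L : ℕ) (E : Finset (Ed d)) (z : Fin d → Fin N) : Set (Ed d) :=
  {e | (e.1 - pos L z, e.2) ∈ E}

/-- weight of a configuration in a box -/
noncomputable def wE {d : ℕ} (p : ℝ) {E : Finset (Ed d)} (η : E → Bool) : ℝ :=
  ∏ e, if η e = true then p else 1 - p

/-- the configuration `η z` in the box with index `z`, `ξ` outside the boxes -/
noncomputable def glue {d N : ℕ} (L : ℕ) (E : Finset (Ed d)) (ξ : Env d)
    (η : (Fin d → Fin N) → E → Bool) : Env d :=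
  open Classical in fun e =>
    if h : ∃ z : Fin d → Fin N, (e.1 - pos L z, e.2) ∈ E then
      η h.choose ⟨_, h.choose_spec⟩ else ξ e

/-- the layer `[2, K+3]^d ∖ [3, K+2]^d` -/
noncomputable def Lay (d K : ℕ) : Finset (Zd d) := cube d 2 (K + 3) \ cube d 3 (K + 2)

end Pool.Agent.TH974.IH
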