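import Mathlib
import Pool.Agent.TH974.IH.Box
import Pool.Agent.TH558.J2149
import Pool.Agent.TH731.J2148
import Pool.Agent.TH209.J2153
import Pool.Agent.TH359.J2342

set_option autoImplicit false

open Finset MeasureTheory ProbabilityTheory Filter Topology
open scoped ENNReal NNReal

namespace Pool.Agent.TH974.IHG

open Pool.Agent.TH974.IH
open Pool.Agent.TH558.IH (OP_path)
open Pool.Agent.TH209.IH2 (shell)
open Pool.Agent.TH359.J2342 (inner)
open Pool.Agent.TH731.IHN3 (GD_series_left GD_series_right)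

theorem adjd_irr {d : ℕ} (x : Zd d) : ¬ adjd x x := by
  rintro ⟨i, h | h⟩ <;>
  · have := congrFun h i
    simp at this

theorem mem_cube {d : ℕ} {a b : ℤ} {x : Zd d} : x ∈ cube d a b ↔ ∀ i, a ≤ x i ∧ x i ≤ b := by
  simp [cube, Fintype.mem_piFinset, Finset.mem_Icc]

theorem GM (D m : ℕ) (hD : 1 ≤ D) (hm : 4 ≤ m) :
    ∃ x0 ∈ Fc (D + 1) (KK m), ∀ x ∈ Fc (D + 1) (KK m), x ≠ x0 → ∃ p,
      IsP (Rm (D + 1) (KK m)) p x x0 ∧ p.length ≤ 2 * (D + 1) * (KK m + 2) ^ D + c0 + 20 ∧
      ∀ q : ℕ, q.Prime → c0 < q → q ≤ 4 ^ (m ^ (D + 1)) →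
        ∃ S E, GD adjd S E x x0 ((p.length : ℚ) - 1) q ∧
          (∀ v ∈ S, v = x ∨ v = x0 ∨ v ∈ Rm (D + 1) (KK m)) ∧
          ∀ e ∈ E, e.1 ∈ Rm (D + 1) (KK m) ∨ e.2 ∈ Rm (D + 1) (KK m) := by
  obtain ⟨a, b, ha0, hb0, ⟨pc, hpcn, hpcc, hpch, hpcl, hpclen, hpcm⟩, hgad⟩ := inner D m hD hm
  set K := KK m with hK
  have hK2 : 2 ≤ K := by rw [hK, KK]; omega
  have ha : a ∈ pc := List.mem_of_head? hpch
  have hb : b ∈ pc := List.mem_of_getLast? hpcl
  have haC := mem_cube.1 (hpcm a ha)
  have hbC := mem_cube.1 (hpcm b hb)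
  have hab : a ≠ b := by
    rintro rfl
    have hne : pc ≠ [] := by rintro rfl; simp at hpch
    have h1 : pc.head hne = a := by
      rw [List.head?_eq_some_head hne] at hpch; simpa using hpch
    have h2 : pc.getLast hne = a := by
      rw [List.getLast?_eq_some_getLast hne] at hpcl; simpa using hpcl
    rw [List.head_eq_getElem] at h1
    rw [List.getLast_eq_getElem] at h2
    have h3 := (List.Nodup.getElem_inj_iff hpcn).1 (h1.trans h2.symm)
    rw [hpclen] at h3
    omega
  -- the special points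
  set e0 : Zd (D + 1) := Pi.single 0 1 with he0
  have he00 : e0 0 = 1 := by rw [he0, Pi.single_eq_same]
  have he0i : ∀ i, i ≠ 0 → e0 i = 0 := fun i hi => by rw [he0, Pi.single_eq_of_ne hi]
  set w0 : Zd (D + 1) := b - e0 with hw0
  set ea : Zd (D + 1) := a - e0 with hea
  set x0 : Zd (D + 1) := w0 - e0 with hx0
  have hw00 : w0 0 = 2 := by rw [hw0, Pi.sub_apply, hb0, he00]; norm_num
  have hw0i : ∀ i, i ≠ 0 → 3 ≤ w0 i ∧ w0 i ≤ (K : ℤ) + 2 := by
    intro i hi
    rw [hw0, Pi.sub_apply, he0i i hi, sub_zero]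
    exact hbC i
  have hea0 : ea 0 = 2 := by rw [hea, Pi.sub_apply, ha0, he00]; norm_num
  have heai : ∀ i, i ≠ 0 → 3 ≤ ea i ∧ ea i ≤ (K : ℤ) + 2 := by
    intro i hi
    rw [hea, Pi.sub_apply, he0i i hi, sub_zero]
    exact haC i
  have hx00 : x0 0 = 1 := by rw [hx0, Pi.sub_apply, hw00, he00]; norm_num
  have hx0i : ∀ i, i ≠ 0 → 3 ≤ x0 i ∧ x0 i ≤ (K : ℤ) + 2 := by
    intro i hi
    rw [hx0, Pi.sub_apply, he0i i hi, sub_zero]
    exact hw0i i hi
  have mRm : ∀ {x : Zd (D + 1)}, x ∈ Rm (D + 1) K ↔ ∀ i, 2 ≤ x i ∧ x i ≤ (K : ℤ) + 3 := by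
    intro x; exact mem_cube
  have mC3 : ∀ {x : Zd (D + 1)}, x ∈ cube (D + 1) 3 ((K : ℤ) + 2) ↔
      ∀ i, 3 ≤ x i ∧ x i ≤ (K : ℤ) + 2 := by
    intro x; exact mem_cube
  have C3Rm : ∀ {x : Zd (D + 1)}, x ∈ cube (D + 1) 3 ((K : ℤ) + 2) → x ∈ Rm (D + 1) K := by
    intro x hx
    rw [mRm]
    intro i
    have := mC3.1 hx i
    constructor <;> omega
  have hw0R : w0 ∈ Rm (D + 1) K := by
    rw [mRm]
    intro i
    by_cases hi : i = 0
    · subst hi; rw [hw00]; constructor <;> omega
    · have := hw0i i hi; constructor <;> omega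
  have hw0C : w0 ∉ cube (D + 1) 3 ((K : ℤ) + 2) := by
    intro h
    have := mC3.1 h 0
    rw [hw00] at this; omega
  have heaR : ea ∈ Rm (D + 1) K := by
    rw [mRm]
    intro i
    by_cases hi : i = 0
    · subst hi; rw [hea0]; constructor <;> omega
    · have := heai i hi; constructor <;> omega
  have heaC : ea ∉ cube (D + 1) 3 ((K : ℤ) + 2) := by
    intro h
    have := mC3.1 h 0
    rw [hea0] at this; omega
  have mLay : ∀ {x : Zd (D + 1)}, x ∈ Lay (D + 1) K ↔ x ∈ Rm (D + 1) K ∧
      x ∉ cube (D + 1) 3 ((K : ℤ) + 2) := by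
    intro x
    rw [Lay, Finset.mem_sdiff]
    rfl
  have FcR : ∀ {x : Zd (D + 1)}, x ∈ Fc (D + 1) K → x ∉ Rm (D + 1) K := by
    intro x hx hxR
    rw [Fc, Finset.mem_filter] at hx
    have h1 := hx.2
    unfold nex at h1
    rw [Finset.card_eq_one] at h1
    obtain ⟨i, hi⟩ := h1
    have : i ∈ Finset.univ.filter (fun i => x i = 1 ∨ x i = (K : ℤ) + 4) := by
      rw [hi]; exact Finset.mem_singleton_self i
    simp only [Finset.mem_filter, Finset.mem_univ, true_and] at this
    have := mRm.1 hxR i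
    omega
  have hx0F : x0 ∈ Fc (D + 1) K := by
    rw [Fc, Finset.mem_filter]
    refine ⟨mem_cube.2 fun i => ?_, ?_⟩
    · by_cases hi : i = 0
      · subst hi; rw [hx00]; constructor <;> omega
      · have := hx0i i hi; constructor <;> omega
    · unfold nex
      rw [Finset.card_eq_one]
      refine ⟨0, ?_⟩
      ext i
      simp only [Finset.mem_filter, Finset.mem_univ, true_and, Finset.mem_singleton]
      constructor
      · intro h
        by_contra hi
        have := hx0i i hi
        omega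
      · rintro rfl
        exact Or.inl hx00
  refine ⟨x0, hx0F, ?_⟩
  intro x hx hxx0
  -- the inward neighbour of x
  have hx' := Finset.mem_filter.1 hx
  have hxc := mem_cube.1 hx'.1
  have hx1 := hx'.2
  unfold nex at hx1
  rw [Finset.card_eq_one] at hx1
  obtain ⟨i, hi⟩ := hx1
  have hi1 : x i = 1 ∨ x i = (K : ℤ) + 4 := by
    have : i ∈ Finset.univ.filter (fun i => x i = 1 ∨ x i = (K : ℤ) + 4) := by
      rw [hi]; exact Finset.mem_singleton_self i
    simpa only [Finset.mem_filter, Finset.mem_univ, true_and] using this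
  have hi2 : ∀ j, j ≠ i → 2 ≤ x j ∧ x j ≤ (K : ℤ) + 3 := by
    intro j hj
    have h1 : j ∉ Finset.univ.filter (fun i => x i = 1 ∨ x i = (K : ℤ) + 4) := by
      rw [hi]; simpa using hj
    simp only [Finset.mem_filter, Finset.mem_univ, true_and, not_or] at h1
    have := hxc j
    constructor <;> omega
  obtain ⟨w, hwadj, hwi, hwj⟩ : ∃ w : Zd (D + 1), adjd x w ∧
      ((x i = 1 ∧ w i = 2) ∨ (x i = (K : ℤ) + 4 ∧ w i = (K : ℤ) + 3)) ∧
      ∀ j, j ≠ i → w j = x j := by
    rcases hi1 with h | h
    · refine ⟨x + Pi.single i 1, ⟨i, Or.inl rfl⟩, Or.inl ⟨h, ?_⟩, fun j hj => ?_⟩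
      · rw [Pi.add_apply, Pi.single_eq_same, h]; norm_num
      · rw [Pi.add_apply, Pi.single_eq_of_ne hj, add_zero]
    · refine ⟨x - Pi.single i 1, ⟨i, Or.inr (by rw [sub_add_cancel])⟩, Or.inr ⟨h, ?_⟩,
        fun j hj => ?_⟩
      · rw [Pi.sub_apply, Pi.single_eq_same, h]; ring
      · rw [Pi.sub_apply, Pi.single_eq_of_ne hj, sub_zero]
  have hwR : w ∈ Rm (D + 1) K := by
    rw [mRm]
    intro j
    by_cases hj : j = i
    · subst hj
      rcases hwi with h | h <;> constructor <;> omega
    · rw [hwj j hj]; exact hi2 j hj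
  have hwC : w ∉ cube (D + 1) 3 ((K : ℤ) + 2) := by
    intro h
    have := mC3.1 h i
    omega
  have hww0 : w ≠ w0 := by
    intro h
    have hi0 : i = 0 := by
      by_contra hne
      have := hw0i i hne
      rw [← h] at this
      omega
    subst hi0
    have h1 : w 0 = 2 := by rw [h]; exact hw00
    have h2 : x 0 = 1 := by omega
    apply hxx0
    funext j
    by_cases hj : j = 0
    · subst hj; rw [h2, hx00]
    · rw [← hwj j hj, h, hx0, Pi.sub_apply, he0i j hj, sub_zero]
  have heaw0 : ea ≠ w0 := by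
    intro h
    exact hab (sub_left_injective h)
  obtain ⟨ps, hpsn, hpsc, hpsh, hpsl, hpsm, hpslen⟩ := shell D K hD hK2 w0 w ea hw00
    (fun i hi => hw0i i hi) (mLay.2 ⟨hwR, hwC⟩) (mLay.2 ⟨heaR, heaC⟩) hww0 heaw0
  have hpsR : ∀ v ∈ ps, v ∈ Rm (D + 1) K ∧ v ∉ cube (D + 1) 3 ((K : ℤ) + 2) ∧ v ≠ w0 :=
    fun v hv => ⟨(mLay.1 (hpsm v hv).1).1, (mLay.1 (hpsm v hv).1).2, (hpsm v hv).2⟩
  have hxR := FcR hx
  have hx0R := FcR hx0F
  have hpcR : ∀ v ∈ pc, v ∈ Rm (D + 1) K := fun v hv => C3Rm (hpcm v hv)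
  have hw0x0 : w0 ≠ x0 := by
    intro h
    exact hx0R (h ▸ hw0R)
  have hadj_eaa : adjd ea a := ⟨0, Or.inl (by rw [hea, sub_add_cancel])⟩
  have hadj_bw0 : adjd b w0 := ⟨0, Or.inr (by rw [hw0, sub_add_cancel])⟩
  have hadj_w0x0 : adjd w0 x0 := ⟨0, Or.inr (by rw [hx0, sub_add_cancel])⟩
  have hpsne : ps ≠ [] := by rintro rfl; simp at hpsh
  have hpcne : pc ≠ [] := by rintro rfl; simp at hpch
  -- the long path
  set p : List (Zd (D + 1)) := x :: (ps ++ (pc ++ [w0, x0])) with hp
  have hplen : p.length = ps.length + (c0 + 10) + 3 := by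
    rw [hp]; simp [hpclen]; ring
  have hxps : x ∉ ps := fun h => hxR (hpsR x h).1
  have hxpc : x ∉ pc := fun h => hxR (hpcR x h)
  have hxw0 : x ≠ w0 := fun h => hxR (h ▸ hw0R)
  have hx0ps : x0 ∉ ps := fun h => hx0R (hpsR x0 h).1
  have hx0pc : x0 ∉ pc := fun h => hx0R (hpcR x0 h)
  have hw0ps : w0 ∉ ps := fun h => (hpsR w0 h).2.2 rfl
  have hw0pc : w0 ∉ pc := fun h => hw0C (hpcm w0 h)
  have hpnd : p.Nodup := by
    rw [hp, List.nodup_cons]
    refine ⟨?_, ?_⟩
    · simp only [List.mem_append, List.mem_cons, List.not_mem_nil, or_false, not_or]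
      exact ⟨hxps, hxpc, hxw0, hxx0⟩
    · rw [List.nodup_append]
      refine ⟨hpsn, ?_, ?_⟩
      · rw [List.nodup_append]
        refine ⟨hpcn, ?_, ?_⟩
        · simp [hw0x0]
        · intro u hu v hv huv
          simp only [List.mem_cons, List.not_mem_nil, or_false] at hv
          subst huv
          rcases hv with h | h
          · exact hw0pc (h ▸ hu)
          · exact hx0pc (h ▸ hu)
      · intro u hu v hv huv
        subst huv
        simp only [List.mem_append, List.mem_cons, List.not_mem_nil, or_false] at hv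
        rcases hv with h | h | h
        · exact (hpsR u hu).2.1 (hpcm u h)
        · exact hw0ps (h ▸ hu)
        · exact hx0ps (h ▸ hu)
  have hpch' : List.IsChain adjd p := by
    rw [hp, List.isChain_cons]
    refine ⟨?_, ?_⟩
    · intro y hy
      rw [List.head?_append, hpsh] at hy
      simp only [Option.some_or, Option.mem_def, Option.some.injEq] at hy
      rw [← hy]; exact hwadj
    · rw [List.isChain_append]
      refine ⟨hpsc, ?_, ?_⟩
      · rw [List.isChain_append]
        refine ⟨hpcc, ?_, ?_⟩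
        · simp [hadj_w0x0]
        · intro u hu v hv
          rw [hpcl] at hu
          simp only [Option.mem_def, Option.some.injEq, List.head?_cons] at hu hv
          rw [← hu, ← hv]; exact hadj_bw0
      · intro u hu v hv
        rw [hpsl] at hu
        rw [List.head?_append, hpch] at hv
        simp only [Option.mem_def, Option.some.injEq, Option.some_or] at hu hv
        rw [← hu, ← hv]; exact hadj_eaa
  refine ⟨p, ⟨hpnd, hpch', rfl, ?_, ?_, ?_⟩, ?_, ?_⟩
  · rw [hp]
    simp [List.getLast?_cons, List.getLast?_append]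
  · rw [hplen]; omega
  · intro v hv
    rw [hp] at hv
    simp only [List.mem_append, List.mem_cons, List.not_mem_nil, or_false] at hv
    rcases hv with h | h | h | h | h
    · exact Or.inl h
    · exact Or.inr (Or.inr (hpsR v h).1)
    · exact Or.inr (Or.inr (hpcR v h))
    · exact Or.inr (Or.inr (h ▸ hw0R))
    · exact Or.inr (Or.inl h)
  · rw [hplen]; omega
  · intro q hq hq1 hq2
    obtain ⟨S2, E2, hG2, hS2⟩ := hgad q hq hq1 hq2
    -- first lead
    have hp1n : (x :: (ps ++ [a])).Nodup := by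
      rw [List.nodup_cons]
      refine ⟨?_, ?_⟩
      · simp only [List.mem_append, List.mem_cons, List.not_mem_nil, or_false, not_or]
        exact ⟨hxps, fun h => hxpc (h ▸ ha)⟩
      · rw [List.nodup_append]
        refine ⟨hpsn, List.nodup_singleton a, ?_⟩
        intro u hu v hv huv
        simp only [List.mem_cons, List.not_mem_nil, or_false] at hv
        subst huv
        exact (hpsR u hu).2.1 (hv ▸ hpcm a ha)
    have hp1c : List.IsChain adjd (x :: (ps ++ [a])) := by
      rw [List.isChain_cons]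
      refine ⟨?_, ?_⟩
      · intro y hy
        rw [List.head?_append, hpsh] at hy
        simp only [Option.some_or, Option.mem_def, Option.some.injEq] at hy
        rw [← hy]; exact hwadj
      · rw [List.isChain_append]
        refine ⟨hpsc, List.isChain_singleton a, ?_⟩
        intro u hu v hv
        rw [hpsl] at hu
        simp only [Option.mem_def, Option.some.injEq, List.head?_cons] at hu hv
        rw [← hu, ← hv]; exact hadj_eaa
    have hxa : x ≠ a := fun h => hxpc (h ▸ ha)
    obtain ⟨E1, hE1, -⟩ := OP_path (adj := adjd) (x :: (ps ++ [a])) x a hp1n hp1c rfl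
      (by simp [List.getLast?_cons, List.getLast?_append]) hxa
    have hbx0 : b ≠ x0 := fun h => hx0pc (h ▸ hb)
    have hbw0 : b ≠ w0 := fun h => hw0pc (h ▸ hb)
    obtain ⟨E3, hE3, -⟩ := OP_path (adj := adjd) [b, w0, x0] b x0
      (by simp [hbw0, hbx0, hw0x0]) (by simp [hadj_bw0, hadj_w0x0]) rfl rfl hbx0
    have hG23 := GD_series_left adjd_irr hG2 hE3 (by
      intro v hv hv3
      simp only [Set.mem_ofPred_eq, List.mem_cons, List.not_mem_nil, or_false] at hv3
      rcases hv3 with h | h | h
      · exact h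
      · exact absurd (hS2 v hv) (h ▸ hw0C)
      · exact absurd (C3Rm (hS2 v hv)) (h ▸ hx0R))
    have hG := GD_series_right adjd_irr hE1 hG23 (by
      intro v hv hv23
      simp only [Set.mem_ofPred_eq, List.mem_append, List.mem_cons, List.not_mem_nil,
        or_false] at hv
      rcases hv with h | h | h
      · exfalso
        subst h
        rcases hv23 with h' | h'
        · exact hxR (C3Rm (hS2 v h'))
        · simp only [Set.mem_ofPred_eq, List.mem_cons, List.not_mem_nil, or_false] at h'
          rcases h' with h' | h' | h'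
          · exact hxpc (h' ▸ hb)
          · exact hxw0 h'
          · exact hxx0 h'
      · exfalso
        rcases hv23 with h' | h'
        · exact (hpsR v h).2.1 (hS2 v h')
        · simp only [Set.mem_ofPred_eq, List.mem_cons, List.not_mem_nil, or_false] at h'
          rcases h' with h' | h' | h'
          · exact (hpsR v h).2.1 (h' ▸ hpcm b hb)
          · exact hw0ps (h' ▸ h)
          · exact hx0ps (h' ▸ h)
      · exact h)
    refine ⟨{v | v ∈ x :: (ps ++ [a])} ∪ (S2 ∪ {v | v ∈ [b, w0, x0]}), E1 ∪ (E2 ∪ E3),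
      ?_, ?_, ?_⟩
    · convert hG using 1
      rw [hplen]
      simp only [List.length_cons, List.length_append, List.length_nil]
      push_cast
      ring
    · intro v hv
      rcases hv with h | h | h
      · simp only [Set.mem_ofPred_eq, List.mem_append, List.mem_cons, List.not_mem_nil,
          or_false] at h
        rcases h with h | h | h
        · exact Or.inl h
        · exact Or.inr (Or.inr (hpsR v h).1)
        · exact Or.inr (Or.inr (h ▸ hpcR a ha))
      · exact Or.inr (Or.inr (C3Rm (hS2 v h)))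
      · simp only [Set.mem_ofPred_eq, List.mem_cons, List.not_mem_nil, or_false] at h
        rcases h with h | h | h
        · exact Or.inr (Or.inr (h ▸ hpcR b hb))
        · exact Or.inr (Or.inr (h ▸ hw0R))
        · exact Or.inr (Or.inl h)
    · intro e he
      rw [Finset.mem_union, Finset.mem_union] at he
      rcases he with h | h | h
      · have h1 := hE1.1.mem e h
        have h2 := hE1.1.adj e h
        by_contra hcon
        push Not at hcon
        have h3 : ∀ v ∈ ({v | v ∈ x :: (ps ++ [a])} : Set (Zd (D + 1))), v ∉ Rm (D + 1) K →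
            v = x := by
          intro v hv hvR
          simp only [Set.mem_ofPred_eq, List.mem_append, List.mem_cons, List.not_mem_nil,
            or_false] at hv
          rcases hv with h | h | h
          · exact h
          · exact absurd (hpsR v h).1 hvR
          · exact absurd (h ▸ hpcR a ha) hvR
        rw [h3 _ h1.1 hcon.1, h3 _ h1.2 hcon.2] at h2
        exact adjd_irr x h2
      · exact Or.inl (C3Rm (hS2 _ (hG2.1.1.mem e h).1))
      · have h1 := hE3.1.mem e h
        have h2 := hE3.1.adj e h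
        by_contra hcon
        push Not at hcon
        have h3 : ∀ v ∈ ({v | v ∈ [b, w0, x0]} : Set (Zd (D + 1))), v ∉ Rm (D + 1) K →
            v = x0 := by
          intro v hv hvR
          simp only [Set.mem_ofPred_eq, List.mem_cons, List.not_mem_nil,
            or_false] at hv
          rcases hv with h | h | h
          · exact absurd (h ▸ hpcR b hb) hvR
          · exact absurd (h ▸ hw0R) hvR
          · exact h
        rw [h3 _ h1.1 hcon.1, h3 _ h1.2 hcon.2] at h2
        exact adjd_irr x0 h2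

end Pool.Agent.TH974.IHG
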