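import Mathlib
import Pool.Agent.TH974.IH.Box
import Pool.Agent.TH615.J2170

set_option autoImplicit false

open Finset MeasureTheory ProbabilityTheory Filter Topology
open scoped ENNReal NNReal

namespace Pool.Agent.TH974.IHG

open Pool.Agent.TH974.IH Pool.Agent.TH615.IHS

theorem S1det {d : ℕ} {ι : Type*} [DecidableEq ι] (q : ℕ) (B : Finset (Zd d)) (A : Finset ι)
    (V : ι → Finset (Zd d)) (x y : ι → Zd d) (E : ι → Finset (Ed d)) (pl : ι → List (Zd d))
    (ω ω' : Env d) (hx : ∀ i ∈ A, x i ∉ V i) (hy : ∀ i ∈ A, y i ∉ V i)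
    (hVB : ∀ i ∈ A, V i ⊆ B) (hpl : ∀ i ∈ A, IsP (V i) (pl i) (x i) (y i))
    (hdis : ∀ i ∈ A, ∀ j ∈ A, i ≠ j →
      Disjoint (insert (x i) (insert (y i) (V i))) (insert (x j) (insert (y j) (V j))))
    (hEV : ∀ i ∈ A, ∀ e ∈ E i, e.1 ∈ insert (x i) (insert (y i) (V i)) ∧
      hd e ∈ insert (x i) (insert (y i) (V i)))
    (honp : ∀ i ∈ A, ∀ e, onp (pl i) e → e ∈ E i)
    (hcl : ∀ i ∈ A, ∀ e, e ∉ E i → (e.1 ∈ V i ∨ hd e ∈ V i) → ω e = false)
    (hω : ∀ e, (∀ i ∈ A, e ∉ E i) → ω' e = ω e) (hA : ∀ i ∈ A, ω' ∈ Apath (E i) (pl i))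
    (hG : ∀ i ∈ A, Gad q ((pl i).length - 1) (E i) (V i) (x i) (y i) ω)
    (u : Zd d → ℤ) (hu : ∀ v ∈ B, Lap ω u v = 0) :
    ∃ u' : Zd d → ℤ, (∀ v ∈ B, Lap ω' u' v = 0) ∧
      (∀ i ∈ A, ∀ (k : ℕ) (hk : k + 1 < (pl i).length), (q : ℤ) ∣ u' (pl i)[k + 1] - u' (pl i)[k]) ∧
      ∀ v, (∀ i ∈ A, v ∉ V i) → u' v = u v := by
  classical
  -- disjointness, pointwise
  have hdj : ∀ i ∈ A, ∀ j ∈ A, ∀ v : Zd d, v ∈ insert (x i) (insert (y i) (V i)) →
      v ∈ insert (x j) (insert (y j) (V j)) → i = j := by
    intro i hi j hj v h1 h2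
    by_contra hne
    exact Finset.disjoint_left.1 (hdis i hi j hj hne) h1 h2
  have hVin : ∀ i v, v ∈ V i → v ∈ insert (x i) (insert (y i) (V i)) := fun i v hv =>
    mem_insert_of_mem (mem_insert_of_mem hv)
  have hxin : ∀ i, x i ∈ insert (x i) (insert (y i) (V i)) := fun i => mem_insert_self _ _
  have hyin : ∀ i, y i ∈ insert (x i) (insert (y i) (V i)) := fun i =>
    mem_insert_of_mem (mem_insert_self _ _)
  have hxV : ∀ i ∈ A, ∀ j ∈ A, x i ∉ V j := by
    intro i hi j hj h
    have := hdj i hi j hj _ (hxin i) (hVin j _ h)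
    subst this
    exact hx i hi h
  have hyV : ∀ i ∈ A, ∀ j ∈ A, y i ∉ V j := by
    intro i hi j hj h
    have := hdj i hi j hj _ (hyin i) (hVin j _ h)
    subst this
    exact hy i hi h
  -- the gadgets
  have hgad : ∀ i ∈ A, flx (E i) ω u (y i) = - flx (E i) ω u (x i) ∧
      u (y i) - u (x i) = ((pl i).length - 1 : ℕ) * flx (E i) ω u (x i) ∧
      (q : ℤ) ∣ flx (E i) ω u (x i) := by
    intro i hi
    apply hG i hi u
    intro v hv _ _
    rw [← Lap_flx (E := E i) u (v := v) (ω := ω)]
    · exact hu v (hVB i hi hv)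
    · intro e he ht
      apply hcl i hi e he
      rcases ht with ht | ht
      · left; rw [ht]; exact hv
      · right; rw [ht]; exact hv
  -- definition of the new function
  let u' : Zd d → ℤ := fun v =>
    if h : ∃ i, i ∈ A ∧ v ∈ V i then
      (if v ∈ pl h.choose then u (x h.choose) + ((pl h.choose).idxOf v : ℤ) *
        flx (E h.choose) ω u (x h.choose) else 0) else u v
  have hu'0 : ∀ v, (∀ i ∈ A, v ∉ V i) → u' v = u v := by
    intro v hv
    have : ¬ ∃ i, i ∈ A ∧ v ∈ V i := by
      rintro ⟨i, hi, h⟩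
      exact hv i hi h
    simp only [u', dif_neg this]
  have hu'1 : ∀ i ∈ A, ∀ v ∈ V i, v ∈ pl i →
      u' v = u (x i) + ((pl i).idxOf v : ℤ) * flx (E i) ω u (x i) := by
    intro i hi v hv hm
    have hex : ∃ i, i ∈ A ∧ v ∈ V i := ⟨i, hi, hv⟩
    have hc : hex.choose = i := hdj _ hex.choose_spec.1 i hi v (hVin _ _ hex.choose_spec.2)
      (hVin _ _ hv)
    simp only [u', dif_pos hex]
    rw [hc, if_pos hm]
  have hu'2 : ∀ i ∈ A, ∀ v ∈ V i, v ∉ pl i → u' v = 0 := by
    intro i hi v hv hm
    have hex : ∃ i, i ∈ A ∧ v ∈ V i := ⟨i, hi, hv⟩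
    have hc : hex.choose = i := hdj _ hex.choose_spec.1 i hi v (hVin _ _ hex.choose_spec.2)
      (hVin _ _ hv)
    simp only [u', dif_pos hex]
    rw [hc, if_neg hm]
  have hval : ∀ i ∈ A, ∀ (k : ℕ) (hk : k < (pl i).length),
      u' (pl i)[k] = u (x i) + (k : ℤ) * flx (E i) ω u (x i) := by
    intro i hi k hk
    have hP := hpl i hi
    rcases hP.mem _ (List.getElem_mem hk) with h | h | h
    · have hk0 : k = 0 := by
        have h1 := IsP_first hP
        rw [← h1] at h
        exact (List.Nodup.getElem_inj_iff hP.nodup).1 h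
      subst hk0
      rw [h, hu'0 _ (fun j hj => hxV i hi j hj)]
      simp
    · have hk0 : k = (pl i).length - 1 := by
        have h1 := IsP_last hP (k := (pl i).length - 1) (by have := hP.len; omega)
        rw [← h1] at h
        exact (List.Nodup.getElem_inj_iff hP.nodup).1 h
      rw [h, hu'0 _ (fun j hj => hyV i hi j hj)]
      have := (hgad i hi).2.1
      rw [← hk0] at this
      linear_combination this
    · rw [hu'1 i hi _ h (List.getElem_mem hk), List.Nodup.idxOf_getElem hP.nodup]
  -- the edges at a vertex which belongs to one box only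
  have hother : ∀ i ∈ A, ∀ v ∈ insert (x i) (insert (y i) (V i)), ∀ e : Ed d, e ∉ E i →
      (e.1 = v ∨ hd e = v) → ∀ j ∈ A, e ∉ E j := by
    intro i hi v hv e he ht j hj hej
    have h1 := hEV j hj e hej
    have hij : i = j := by
      rcases ht with ht | ht
      · exact hdj i hi j hj v hv (ht ▸ h1.1)
      · exact hdj i hi j hj v hv (ht ▸ h1.2)
    subst hij
    exact he hej
  -- terms of the edges which belong to no box
  have hterm : ∀ v, (∀ j ∈ A, v ∉ V j) → ∀ e : Ed d, (e.1 = v ∨ hd e = v) → (∀ j ∈ A, e ∉ E j) →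
      tm ω' u' v e = tm ω u v e := by
    intro v hv e ht he
    have h1 := hω e he
    by_cases ho : ω e = true
    · have hz : ∀ j ∈ A, e.1 ∉ V j ∧ hd e ∉ V j := by
        intro j hj
        constructor
        · intro h
          have := hcl j hj e (he j hj) (Or.inl h)
          rw [ho] at this
          exact absurd this (by simp)
        · intro h
          have := hcl j hj e (he j hj) (Or.inr h)
          rw [ho] at this
          exact absurd this (by simp)
      unfold tm
      rw [h1, hu'0 v hv, hu'0 e.1 (fun j hj => (hz j hj).1), hu'0 (hd e) (fun j hj => (hz j hj).2)]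
    · have ho' : ω e = false := by simpa using ho
      rw [tm_closed ho', tm_closed (h1.trans ho')]
  have hsplit : ∀ (F : Finset (Ed d)) (w : Env d) (f : Zd d → ℤ) (v : Zd d),
      Lap w f v = flx F w f v + ∑ e ∈ st v \ F, tm w f v e := by
    intro F w f v
    have h1 : Lap w f v = flx (F ∪ st v) w f v := by
      apply Lap_flx
      intro e he ht
      exact absurd (mem_union_right F (mem_st.2 ht)) he
    rw [h1, flx_def, flx_def, ← Finset.union_sdiff_self_eq_union, sum_union]
    exact Finset.disjoint_sdiff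
  refine ⟨u', ?_, ?_, hu'0⟩
  · intro v hvB
    by_cases hV : ∃ i, i ∈ A ∧ v ∈ V i
    · obtain ⟨i, hi, hv⟩ := hV
      have hP := hpl i hi
      have hPt : Pth (E i) (pl i) ω' := ⟨hP.nodup, hP.chain, honp i hi, hA i hi⟩
      have h1 : Lap ω' u' v = flx (E i) ω' u' v := by
        apply Lap_flx
        intro e he ht
        have h2 := hother i hi v (hVin _ _ hv) e he ht
        rw [hω e h2]
        apply hcl i hi e he
        rcases ht with ht | ht
        · left; rw [ht]; exact hv
        · right; rw [ht]; exact hv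
      rw [h1]
      by_cases hm : v ∈ pl i
      · obtain ⟨k, hk, rfl⟩ := List.getElem_of_mem hm
        have hk0 : k ≠ 0 := by
          rintro rfl
          rw [IsP_first hP] at hv
          exact hx i hi hv
        have hk1 : k + 1 ≠ (pl i).length := by
          intro h
          rw [IsP_last hP h] at hv
          exact hy i hi hv
        obtain ⟨l, rfl⟩ : ∃ l, k = l + 1 := ⟨k - 1, by omega⟩
        rw [hPt.flx_mid u' (k := l) (by omega), hval i hi, hval i hi, hval i hi]
        push_cast; ring
      · apply hPt.flx_off u' hm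
        intro e he h2 h3 _
        have h4 := hEV i hi e he
        have hin : ∀ z ∈ insert (x i) (insert (y i) (V i)), z ∉ pl i → z ∈ V i := by
          intro z hz hn
          rw [mem_insert, mem_insert] at hz
          rcases hz with rfl | rfl | hz
          · exfalso
            apply hn
            rw [← IsP_first hP]
            exact List.getElem_mem _
          · exfalso
            apply hn
            rw [← IsP_last hP (k := (pl i).length - 1) (by have := hP.len; omega)]
            exact List.getElem_mem _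
          · exact hz
        rw [hu'2 i hi _ (hin _ h4.1 h2) h2, hu'2 i hi _ (hin _ h4.2 h3) h3]
    · have hV' : ∀ i ∈ A, v ∉ V i := fun i hi h => hV ⟨i, hi, h⟩
      by_cases hxy : ∃ i, i ∈ A ∧ (v = x i ∨ v = y i)
      · obtain ⟨i, hi, hv⟩ := hxy
        have hP := hpl i hi
        have hPt : Pth (E i) (pl i) ω' := ⟨hP.nodup, hP.chain, honp i hi, hA i hi⟩
        have hvin : v ∈ insert (x i) (insert (y i) (V i)) := by
          rcases hv with rfl | rfl
          · exact hxin i
          · exact hyin i
        have h1 : flx (E i) ω' u' v = flx (E i) ω u v := by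
          rcases hv with hv | hv
          · rw [hv]
            have h2 := hPt.flx_first u' (by have := hP.len; omega)
            rw [hval i hi, hval i hi, IsP_first hP] at h2
            rw [h2]
            push_cast; ring
          · obtain ⟨k, hk⟩ : ∃ k, k + 2 = (pl i).length := ⟨(pl i).length - 2, by
              have := hP.len; omega⟩
            have h2 := hPt.flx_last u' hk
            rw [hval i hi, hval i hi, IsP_last hP (k := k + 1) (by omega)] at h2
            rw [hv, h2, (hgad i hi).1]
            push_cast; ring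
        have h2 : ∑ e ∈ st v \ E i, tm ω' u' v e = ∑ e ∈ st v \ E i, tm ω u v e := by
          apply sum_congr rfl
          intro e he
          rw [Finset.mem_sdiff] at he
          exact hterm v hV' e (mem_st.1 he.1) (hother i hi v hvin e he.2 (mem_st.1 he.1))
        rw [hsplit (E i), h1, h2, ← hsplit (E i)]
        exact hu v hvB
      · have h2 : ∑ e ∈ st v \ ∅, tm ω' u' v e = ∑ e ∈ st v \ ∅, tm ω u v e := by
          apply sum_congr rfl
          intro e he
          rw [Finset.mem_sdiff] at he
          refine hterm v hV' e (mem_st.1 he.1) ?_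
          intro j hj hej
          have h3 := hEV j hj e hej
          have h4 : v ∈ insert (x j) (insert (y j) (V j)) := by
            rcases mem_st.1 he.1 with h | h
            · exact h ▸ h3.1
            · exact h ▸ h3.2
          rw [mem_insert, mem_insert] at h4
          rcases h4 with h4 | h4 | h4
          · exact hxy ⟨j, hj, Or.inl h4⟩
          · exact hxy ⟨j, hj, Or.inr h4⟩
          · exact hV' j hj h4
        have h3 : flx ∅ ω' u' v = flx ∅ ω u v := by simp [flx]
        rw [hsplit ∅, h3, h2, ← hsplit ∅]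
        exact hu v hvB
  · intro i hi k hk
    rw [hval i hi, hval i hi]
    have h := (hgad i hi).2.2
    have h2 : u (x i) + ((k + 1 : ℕ) : ℤ) * flx (E i) ω u (x i) -
        (u (x i) + (k : ℤ) * flx (E i) ω u (x i)) = flx (E i) ω u (x i) := by
      push_cast; ring
    rw [h2]
    exact h

end Pool.Agent.TH974.IHG
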