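import Mathlib
import Pool.Agent.TH740.IHc
import Pool.Agent.TH740.J2355
import Pool.Agent.TH645.J2186
import Pool.Agent.TH974.IH.S1d

/-! Currents along isolated paths are divisible by `q`. -/

set_option autoImplicit false

open Finset MeasureTheory ProbabilityTheory Filter Topology
open scoped ENNReal NNReal

namespace Pool.Agent.TH974.IHG

open Pool.Agent.TH974.IH Pool.Agent.TH615.IHS Pool.Agent.TH740.IHc

theorem onp_shift {d : ℕ} (a : Zd d) (pl : List (Zd d)) (e : Ed d) :
    onp (pl.map (· + a)) e ↔ onp pl ((e.1 - a, e.2) : Ed d) := by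
  rw [onp_iff, onp_iff]
  have key : ∀ b c : Zd d, Jn e (b + a) (c + a) ↔ Jn ((e.1 - a, e.2) : Ed d) b c := by
    intro b c
    unfold Jn
    rw [hd_shift']
    simp only [sub_eq_iff_eq_add]
  constructor
  · rintro ⟨k, hk, h⟩
    rw [List.length_map] at hk
    refine ⟨k, hk, ?_⟩
    rw [← key]
    simpa using h
  · rintro ⟨k, hk, h⟩
    refine ⟨k, by rwa [List.length_map], ?_⟩
    rw [← key] at h
    simpa using h

theorem mem_map_shift {d : ℕ} (a : Zd d) (pl : List (Zd d)) (v : Zd d) :
    v ∈ pl.map (· + a) ↔ v - a ∈ pl := by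
  rw [List.mem_map]
  constructor
  · rintro ⟨w, hw, rfl⟩
    simpa using hw
  · intro h
    exact ⟨_, h, by simp⟩

theorem apath_shift {d : ℕ} (a : Zd d) (pl : List (Zd d)) (E : Finset (Ed d)) {ω : Env d}
    (h : sh a ω ∈ Apath E pl) : ω ∈ Apath (shE a E) (pl.map (· + a)) := by
  intro e he
  rw [mem_shE] at he
  have h1 := h _ he
  have h2 : sh a ω (e.1 - a, e.2) = ω e := by
    unfold sh
    simp
  rw [h2, hd_shift'] at h1
  rw [onp_shift, mem_map_shift, mem_map_shift]
  exact h1

theorem isP_shift {d : ℕ} (a : Zd d) {pl : List (Zd d)} {V : Finset (Zd d)} {x y : Zd d}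
    (h : IsP V pl x y) : IsP (shV a V) (pl.map (· + a)) (x + a) (y + a) where
  nodup := h.nodup.map (add_left_injective a)
  chain := by
    rw [List.isChain_map]
    refine h.chain.imp ?_
    rintro b c ⟨i, hi | hi⟩
    · exact ⟨i, Or.inl (by rw [hi]; abel)⟩
    · exact ⟨i, Or.inr (by rw [hi]; abel)⟩
  head := by rw [List.head?_map, h.head]; rfl
  last := by rw [List.getLast?_map, h.last]; rfl
  len := by rw [List.length_map]; exact h.len
  mem := by
    intro v hv
    rw [mem_map_shift] at hv
    rcases h.mem _ hv with h1 | h1 | h1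
    · left; rw [← h1]; simp
    · right; left; rw [← h1]; simp
    · right; right; exact mem_shV.2 h1

theorem gad_shift {d : ℕ} {q s : ℕ} (a : Zd d) {E : Finset (Ed d)} {V : Finset (Zd d)}
    {x y : Zd d} {ω : Env d} (h : Gad q s E V x y (sh a ω)) :
    Gad q s (shE a E) (shV a V) (x + a) (y + a) ω := by
  intro u hu
  have h1 := h (fun v => u (v + a)) (fun v hv hvx hvy => by
    rw [flx_shift]
    apply hu
    · rw [mem_shV]; simpa using hv
    · intro hc; exact hvx (add_right_cancel hc)
    · intro hc; exact hvy (add_right_cancel hc))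
  rw [flx_shift, flx_shift] at h1
  exact h1

theorem gad_congr {d : ℕ} {q s : ℕ} {E : Finset (Ed d)} {V : Finset (Zd d)}
    {x y : Zd d} {ω ω' : Env d} (he : ∀ e ∈ E, ω e = ω' e) (h : Gad q s E V x y ω) :
    Gad q s E V x y ω' := by
  intro u hu
  have h1 := h u (fun v hv hvx hvy => by rw [flx_congr E he]; exact hu v hv hvx hvy)
  rw [flx_congr E he, flx_congr E he] at h1
  exact h1

theorem apath_dep {d : ℕ} (E : Finset (Ed d)) (pl : List (Zd d)) :
    Dep (E : Set (Ed d)) (Apath E pl) := by
  have key : ∀ ω ω' : Env d, (∀ e ∈ (E : Set (Ed d)), ω e = ω' e) → ω ∈ Apath E pl →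
      ω' ∈ Apath E pl := by
    intro ω ω' h hω e he
    rw [← h e he]
    exact hω e he
  intro ω ω' h
  exact ⟨key ω ω' h, key ω' ω fun e he => (h e he).symm⟩

theorem cyl_pos {d : ℕ} (p : ℝ) (hp0 : 0 < p) (hp1 : p < 1) (F : Finset (Ed d)) (β : Env d) :
    0 < (perc d p).real {ω | ∀ e ∈ F, ω e = β e} := by
  rw [Pool.Agent.TH645.IH.perc_cyl p hp0.le hp1.le]
  apply Finset.prod_pos
  intro e _
  split_ifs
  · exact hp0
  · linarith

theorem apath_pos {d : ℕ} (p : ℝ) (hp0 : 0 < p) (hp1 : p < 1) (E : Finset (Ed d))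
    (pl : List (Zd d)) : 0 < (perc d p).real (Apath E pl) := by
  classical
  have hprob : IsProbabilityMeasure (perc d p) :=
    Pool.Agent.TH645.IH.perc_prob p hp0.le hp1.le
  refine (cyl_pos p hp0 hp1 E (fun e => decide (onp pl e))).trans_le (measureReal_mono ?_)
  intro ω hω e he
  have := hω e he
  constructor
  · intro h; rw [this]; simpa using h
  · intro h _; rw [this]; simpa using h

theorem S1P {d : ℕ} (hd1 : 1 ≤ d) (p : ℝ) (hp0 : 0 < p) (hp1 : p < 1) (X : Loc d) (hX : X.OK)
    (hL : 2 ≤ X.L) (x y : Zd d) (hT : X.T = {x, y}) (pl : List (Zd d))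
    (hpl : IsP (X.V \ X.T) pl x y) (hE : ∀ e, onp pl e → e ∈ X.E) (q : ℕ) (hq : q.Prime)
    (β : Env d) (hβ : Gad q (pl.length - 1) X.E (X.V \ X.T) x y β) (η : ℝ) (hη : 0 < η) :
    ∃ r : ℕ, (perc d p).real {ω | ω ∈ X.G ∧ ω ∈ Apath X.E pl ∧ ∃ u, HarC r ω u ∧
      ¬ Flat q ω X.T X.E u} ≤ η := by
  classical
  have hp0' := hp0.le
  have hp1' := hp1.le
  have hprob : IsProbabilityMeasure (perc d p) := Pool.Agent.TH645.IH.perc_prob p hp0' hp1'
  have hL1 : 1 ≤ X.L := by omega
  have hqf : Fact q.Prime := ⟨hq⟩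
  have hlen := hpl.len
  have hxT : x ∉ X.V \ X.T := fun h => (Finset.mem_sdiff.1 h).2 (by rw [hT]; simp)
  have hyT : y ∉ X.V \ X.T := fun h => (Finset.mem_sdiff.1 h).2 (by rw [hT]; simp)
  have hxX : x ∈ X.T := by rw [hT]; simp
  have hyX : y ∈ X.T := by rw [hT]; simp
  -- cells
  have hVc : ∀ x ∈ X.V, x ∈ cube d 0 ((X.L : ℤ) - 1) := fun x hx =>
    cube_mono (by omega) (by omega) (hX.VL hx)
  have hEc : ∀ e ∈ X.E, e.1 ∈ cube d 0 ((X.L : ℤ) - 1) ∧ hd e ∈ cube d 0 ((X.L : ℤ) - 1) :=
    fun e he => ⟨hVc _ (hX.EV e he).1, hVc _ (hX.EV e he).2⟩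
  have hplV : ∀ v ∈ pl, v ∈ X.V := by
    intro v hv
    rcases hpl.mem v hv with h | h | h
    · rw [h]; exact hX.TV hxX
    · rw [h]; exact hX.TV hyX
    · exact (Finset.mem_sdiff.1 h).1
  set S : Set (Env d) := {ω | ∀ e ∈ X.E, ω e = β e} with hSdef
  set R : Set (Env d) := Apath X.E pl with hRdef
  have hS : Dep (X.E : Set (Ed d)) S := by
    have key : ∀ ω ω' : Env d, (∀ e ∈ (X.E : Set (Ed d)), ω e = ω' e) → ω ∈ S → ω' ∈ S := by
      intro ω ω' h hω e he
      rw [← h e he]
      exact hω e he
    intro ω ω' h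
    exact ⟨key ω ω' h, key ω' ω fun e he => (h e he).symm⟩
  have hR : Dep (X.E : Set (Ed d)) R := apath_dep _ _
  have hSR : Disjoint S R := by
    rw [Set.disjoint_left]
    intro ω hS' hR'
    exact gad_not_path q hq.two_le (X.V \ X.T) X.E x y pl hpl hxT hyT hE β hβ
      ((hR ω β fun e he => hS' e he).1 hR')
  have hSpos : 0 < (perc d p).real S := cyl_pos p hp0 hp1 X.E β
  have hRpos : 0 < (perc d p).real R := apath_pos p hp0 hp1 X.E pl
  set ε : ℝ := (perc d p).real S / ((perc d p).real S + (perc d p).real R) with hεdef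
  have hε : 0 < ε := by positivity
  have hε' : ε * ((perc d p).real S + (perc d p).real R) ≤ (perc d p).real S := by
    rw [hεdef]
    field_simp
    exact le_rfl
  -- the bound for each `N`
  have main : ∀ N : ℕ, 1 ≤ N → (perc d p).real {ω | ω ∈ X.G ∧ ω ∈ R ∧ ∃ u, HarC (N * X.L) ω u ∧
      ¬ Flat q ω X.T X.E u} * (ε * (N : ℝ) ^ d) ≤ 2 * d * (N * X.L : ℝ) ^ (d - 1) := by
    intro N hN
    obtain ⟨Ξ, ν, hν0, hν1, hmain⟩ := Pool.Agent.TH740.J2355.GRP p hp0 hp1 X.L N hL1 X.E hEc X.G
      S R hX.Gdep hS hR hSR hRpos ε hε'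
    set p1 : Zd d := pl[1] with hp1def
    set p0 : Zd d := pl[0] with hp0def
    have hp1V : p1 ∈ X.V := hplV _ (List.getElem_mem _)
    have hp0V : p0 ∈ X.V := hplV _ (List.getElem_mem _)
    set Mon : Env d → Zd d → Zd d → Prop := fun ω a b => ω ∈ R ∧ a = p1 ∧ b = p0 with hMon
    set NF : (Fin d → Fin N) → Set (Env d) := fun z => {ω | ∃ u : Zd d → ℤ,
      (∀ x ∈ BB d N X.L, Lap ω u x = 0) ∧
        ((u (p1 + pos X.L z) : ℤ) : ZMod q) ≠ ((u (p0 + pos X.L z) : ℤ) : ZMod q)} with hNF
    have hNFd : ∀ z, Dep (ED d N X.L) (NF z) := by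
      intro z
      have key : ∀ ω ω' : Env d, (∀ e ∈ ED d N X.L, ω e = ω' e) → ω ∈ NF z → ω' ∈ NF z := by
        intro ω ω' h hω
        obtain ⟨u, hu, hne⟩ := hω
        refine ⟨u, fun x hx => ?_, hne⟩
        rw [← lap_dep h u hx]; exact hu x hx
      intro ω ω' h
      exact ⟨key ω ω' h, key ω' ω fun e he => (h e he).symm⟩
    have h1 := hmain q (fun ω => HH q (DD d N X.L) (BB d N X.L) ω)
      (fun ω z => UU (ZMod q) (DD d N X.L) (Mon (sh (pos X.L z) ω)) (pos X.L z)) NF hNFd ?_
    · -- conclusion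
      have h2 : ∀ ω : Env d, (Module.finrank (ZMod q)
            (HH q (DD d N X.L) (BB d N X.L) ω) : ℝ) -
          Module.finrank (ZMod q) (HH q (DD d N X.L) (BB d N X.L) ω ⊓
            ⨅ (z : Fin d → Fin N) (_ : sh (pos X.L z) ω ∈ X.G),
              UU (ZMod q) (DD d N X.L) (Mon (sh (pos X.L z) ω)) (pos X.L z) :
              Submodule (ZMod q) (DD d N X.L → ZMod q)) ≤
          2 * d * (N * X.L : ℝ) ^ (d - 1) := by
        intro ω
        have h3 := Pool.Agent.TH999.J2183.HH_le_WW _ _ (B_sub_D d N X.L) (B_nbr d N X.L) ω q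
        have h4 : CC (ZMod q) (DD d N X.L) ω ≤ HH q (DD d N X.L) (BB d N X.L) ω ⊓
            ⨅ (z : Fin d → Fin N) (_ : sh (pos X.L z) ω ∈ X.G),
              UU (ZMod q) (DD d N X.L) (Mon (sh (pos X.L z) ω)) (pos X.L z) := by
          refine le_inf (Pool.Agent.TH999.J2181.CC_le_HH _ _ (B_sub_D d N X.L)
            (B_nbr d N X.L) ω q) ?_
          refine le_iInf fun z => le_iInf fun hz => ?_
          intro w hw
          rw [mem_UU]
          rintro a b ⟨hM, rfl, rfl⟩
          refine (CC_con ω z hw ?_).symm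
          -- a single edge
          obtain ⟨e, he⟩ := Jn_exists (List.isChain_iff_getElem.1 hpl.chain 0 (by omega))
          have hon : onp pl e := onp_iff.2 ⟨0, by omega, he⟩
          have heE := hE e hon
          exact Relation.ReflTransGen.single ⟨e, hEc e heE, (hM e heE).1 hon, he⟩
        have h5 := Submodule.finrank_mono h4
        have h6 := Pool.Agent.TH999.J2182.energy _ _ (B_sub_D d N X.L) (B_nbr d N X.L) ω
        have h7 := Pool.Agent.TH999.J2180.CC_rank (DD d N X.L) ω q
        have h8 := Pool.Agent.TH740.J2189.card_DB d N X.L hd1 hL hN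
        have h9 : Module.finrank (ZMod q) (HH q (DD d N X.L) (BB d N X.L) ω) ≤
            Module.finrank (ZMod q) (HH q (DD d N X.L) (BB d N X.L) ω ⊓
            ⨅ (z : Fin d → Fin N) (_ : sh (pos X.L z) ω ∈ X.G),
              UU (ZMod q) (DD d N X.L) (Mon (sh (pos X.L z) ω)) (pos X.L z) :
              Submodule (ZMod q) (DD d N X.L → ZMod q)) + (DD d N X.L \ BB d N X.L).card := by
          omega
        have h10 : (Module.finrank (ZMod q) (HH q (DD d N X.L) (BB d N X.L) ω) : ℝ) ≤
            (Module.finrank (ZMod q) (HH q (DD d N X.L) (BB d N X.L) ω ⊓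
            ⨅ (z : Fin d → Fin N) (_ : sh (pos X.L z) ω ∈ X.G),
              UU (ZMod q) (DD d N X.L) (Mon (sh (pos X.L z) ω)) (pos X.L z) :
              Submodule (ZMod q) (DD d N X.L → ZMod q)) : ℝ) +
              ((DD d N X.L \ BB d N X.L).card : ℝ) := by
          exact_mod_cast h9
        linarith
      have h3 : ε * ∑ z : Fin d → Fin N, (perc d p).real
          {ω | sh (pos X.L z) ω ∈ X.G ∧ sh (pos X.L z) ω ∈ R ∧ ω ∈ NF z} ≤
          2 * d * (N * X.L : ℝ) ^ (d - 1) := by
        refine h1.trans ?_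
        calc _ ≤ ∑ ω ∈ Ξ, ν ω * (2 * d * (N * X.L : ℝ) ^ (d - 1)) :=
              Finset.sum_le_sum fun ω _ => mul_le_mul_of_nonneg_left (h2 ω) (hν0 ω)
          _ = _ := by
              rw [← Finset.sum_mul, hν1, one_mul]
      set tgt : Set (Env d) := {ω | ω ∈ X.G ∧ ω ∈ R ∧ ∃ u, HarC (N * X.L) ω u ∧
        ¬ Flat q ω X.T X.E u} with htgt
      have h4 : ∀ z : Fin d → Fin N, (perc d p).real tgt ≤
          (perc d p).real {ω | sh (pos X.L z) ω ∈ X.G ∧ sh (pos X.L z) ω ∈ R ∧ ω ∈ NF z} := by
        intro z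
        rw [← real_shift p hp0' hp1' (pos X.L z) tgt]
        refine measureReal_mono ?_
        rintro ω ⟨hG, hRω, u', hu', hnf⟩
        refine ⟨hG, hRω, fun v => u' (v - pos X.L z), fun v hv => ?_, ?_⟩
        · exact har_B (r := N * X.L) le_rfl ω z hu' hv
        · simp only [add_sub_cancel_right]
          intro heq
          apply hnf
          -- linearity along the path
          have hVr : ∀ v ∈ X.V \ X.T, v ∈ cube d (-((N * X.L : ℕ) : ℤ)) ((N * X.L : ℕ) : ℤ) := by
            intro v hv
            have hv' := hX.VL (Finset.mem_sdiff.1 hv).1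
            have hNL : X.L ≤ N * X.L := Nat.le_mul_of_pos_left _ hN
            refine cube_mono ?_ ?_ hv'
            · have : (0 : ℤ) ≤ ((N * X.L : ℕ) : ℤ) := Int.natCast_nonneg _
              omega
            · omega
          obtain ⟨I, hI1, hI2, hI3⟩ := S1lin (X.V \ X.T) X.E x y pl hpl hxT hyT hE
            (sh (pos X.L z) ω) hRω
            (fun e he h => hX.Gcl _ hG e he (by
              rcases h with h | h
              · left; exact Finset.mem_sdiff.1 h
              · right; exact Finset.mem_sdiff.1 h))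
            u' (fun v hv => hu' v (hVr v hv))
          have hI0 : ((I : ℤ) : ZMod q) = 0 := by
            have e1 := hI1 1 (by omega)
            have e0 := hI1 0 (by omega)
            have e2 : u' p1 = u' p0 + I := by
              rw [hp1def, hp0def, e1, e0]
              push_cast; ring
            rw [e2] at heq
            push_cast at heq
            simpa using heq
          have hlast : u' y = u' x + ((pl.length - 1 : ℕ) : ℤ) * I := by
            have e1 := hI1 (pl.length - 1) (by omega)
            rw [IsP_last hpl (k := pl.length - 1) (by omega)] at e1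
            exact e1
          have hxy : ((u' x : ℤ) : ZMod q) = ((u' y : ℤ) : ZMod q) := by
            rw [hlast]
            push_cast
            rw [hI0]
            ring
          constructor
          · intro a ha b hb
            rw [hT, mem_insert, mem_singleton] at ha hb
            rcases ha with rfl | rfl <;> rcases hb with rfl | rfl
            · rfl
            · exact hxy
            · exact hxy.symm
            · rfl
          · intro a ha
            rw [hT, mem_insert, mem_singleton] at ha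
            rcases ha with rfl | rfl
            · rw [hI2]; exact hI0
            · rw [hI3]; push_cast; rw [hI0]; simp
      have h5 := Finset.sum_le_sum fun z (_ : z ∈ (Finset.univ : Finset (Fin d → Fin N))) => h4 z
      rw [Finset.sum_const] at h5
      simp only [Finset.card_univ, Fintype.card_pi, Fintype.card_fin, Finset.prod_const,
        nsmul_eq_mul, Nat.cast_pow] at h5
      calc (perc d p).real tgt * (ε * (N : ℝ) ^ d) = ε * ((N : ℝ) ^ d * (perc d p).real tgt) := by
            ring
        _ ≤ ε * ∑ z : Fin d → Fin N, (perc d p).real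
          {ω | sh (pos X.L z) ω ∈ X.G ∧ sh (pos X.L z) ω ∈ R ∧ ω ∈ NF z} :=
            mul_le_mul_of_nonneg_left h5 hε.le
        _ ≤ _ := h3
    · -- the hypothesis of the replacement lemma
      intro ω ω' hoff hrep z hGz hRz hNFz
      obtain ⟨u, hu, hne⟩ := hNFz
      set A : Finset (Fin d → Fin N) := Finset.univ.filter
        (fun z' => sh (pos X.L z') ω ∈ X.G ∧ sh (pos X.L z') ω ∈ S) with hA
      have memA : ∀ z', z' ∈ A ↔ sh (pos X.L z') ω ∈ X.G ∧ sh (pos X.L z') ω ∈ S := by
        intro z'; simp [hA]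
      have hcellz : ∀ (z' : Fin d → Fin N) (v : Zd d), v ∈ shV (pos X.L z') X.V →
          v - pos X.L z' ∈ cube d 0 ((X.L : ℤ) - 1) := fun z' v hv => hVc _ (mem_shV.1 hv)
      have hins : ∀ (z' : Fin d → Fin N) (v : Zd d), v ∈ insert (x + pos X.L z')
          (insert (y + pos X.L z') (shV (pos X.L z') (X.V \ X.T))) →
          v ∈ shV (pos X.L z') X.V := by
        intro z' v hv
        rw [mem_insert, mem_insert] at hv
        rw [mem_shV]
        rcases hv with rfl | rfl | hv
        · simpa using hX.TV hxX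
        · simpa using hX.TV hyX
        · exact (Finset.mem_sdiff.1 (mem_shV.1 hv)).1
      have hins' : ∀ (z' : Fin d → Fin N) (v : Zd d), v ∈ shV (pos X.L z') X.V →
          v ∈ insert (x + pos X.L z')
          (insert (y + pos X.L z') (shV (pos X.L z') (X.V \ X.T))) := by
        intro z' v hv
        rw [mem_shV] at hv
        rw [mem_insert, mem_insert, mem_shV]
        by_cases hvT : v - pos X.L z' ∈ X.T
        · rw [hT, mem_insert, mem_singleton] at hvT
          rcases hvT with h | h
          · left; rw [← h]; simp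
          · right; left; rw [← h]; simp
        · right; right; exact Finset.mem_sdiff.2 ⟨hv, hvT⟩
      obtain ⟨w, hw1, hw2, hw3⟩ := S1det q (BB d N X.L) A
        (fun z' => shV (pos X.L z') (X.V \ X.T)) (fun z' => x + pos X.L z')
        (fun z' => y + pos X.L z') (fun z' => shE (pos X.L z') X.E)
        (fun z' => pl.map (· + pos X.L z')) ω ω'
        (fun z' _ h => hxT (by have := mem_shV.1 h; simpa using this))
        (fun z' _ h => hyT (by have := mem_shV.1 h; simpa using this))
        (fun z' _ v hv => by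
          have h2 := hX.VL (Finset.mem_sdiff.1 (mem_shV.1 hv)).1
          have h3 := cell_B h2 z'
          simpa using h3)
        (fun z' _ => isP_shift _ hpl)
        (fun z' _ z'' _ hne => by
          rw [Finset.disjoint_left]
          intro v hv hv'
          exact hne (cell_eq hL1 (hcellz z' v (hins z' v hv)) (hcellz z'' v (hins z'' v hv'))))
        (fun z' _ e he => by
          have h2 := hX.EV _ (mem_shE.1 he)
          refine ⟨hins' _ _ (mem_shV.2 h2.1), hins' _ _ (mem_shV.2 ?_)⟩
          rw [← hd_shift']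
          exact h2.2)
        (fun z' _ e he => by
          rw [onp_shift] at he
          exact mem_shE.2 (hE _ he))
        (fun z' hz' e he h => by
          have hG := ((memA z').1 hz').1
          have h2 := hX.Gcl _ hG (e.1 - pos X.L z', e.2) (fun h3 => he (mem_shE.2 h3)) (by
            rw [hd_shift']
            rcases h with h3 | h3
            · left
              exact Finset.mem_sdiff.1 (mem_shV.1 h3)
            · right
              exact Finset.mem_sdiff.1 (mem_shV.1 h3))
          have h3 : sh (pos X.L z') ω (e.1 - pos X.L z', e.2) = ω e := by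
            unfold sh
            simp
          rw [← h3]
          exact h2)
        (fun e he => hoff e fun z' h2 h3 h4 => he z' ((memA z').2 ⟨h2, h3⟩) (mem_shE.2 h4))
        (fun z' hz' => apath_shift _ _ _ (hrep z' ((memA z').1 hz').1 ((memA z').1 hz').2))
        (fun z' hz' => by
          rw [List.length_map]
          apply gad_shift
          exact gad_congr (fun e he => (((memA z').1 hz').2 e he).symm) hβ)
        u hu
      -- the test function
      intro hle
      have hVD : ∀ (z' : Fin d → Fin N) (v : Zd d), v ∈ X.V → v + pos X.L z' ∈ DD d N X.L :=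
        fun z' v hv => cell_D (hVc v hv) z'
      have hmem : (fun v : DD d N X.L => ((w v : ℤ) : ZMod q)) ∈
          (HH q (DD d N X.L) (BB d N X.L) ω' ⊓
          ⨅ (z' : Fin d → Fin N) (_ : sh (pos X.L z') ω ∈ X.G ∧ sh (pos X.L z') ω ∈ S),
            UU (ZMod q) (DD d N X.L) (Mon (sh (pos X.L z') ω')) (pos X.L z')) := by
        refine ⟨Submodule.subset_span ⟨w, hw1, fun _ => rfl⟩, ?_⟩
        simp only [Submodule.mem_iInf, SetLike.mem_coe]
        intro z' hz'
        rw [mem_UU]
        rintro a b ⟨-, rfl, rfl⟩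
        rw [ext_of_mem _ (hVD z' _ hp1V), ext_of_mem _ (hVD z' _ hp0V)]
        have h2 := hw2 z' ((memA z').2 hz') 0 (by rw [List.length_map]; omega)
        simp only [List.getElem_map] at h2
        have h3 := (ZMod.intCast_zmod_eq_zero_iff_dvd _ q).2 h2
        push_cast at h3
        exact sub_eq_zero.1 h3
      have h2 := hle hmem
      rw [mem_UU] at h2
      have hzA : z ∉ A := fun h =>
        Set.disjoint_left.1 hSR ((memA z).1 h).2 hRz
      have hMz : Mon (sh (pos X.L z) ω') p1 p0 := by
        refine ⟨?_, rfl, rfl⟩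
        refine (hR _ _ fun e he => ?_).1 hRz
        refine (hoff _ fun z' h3 h4 h5 => ?_).symm
        have h6 : z = z' := by
          have h7 : e.1 + pos X.L z - pos X.L z' ∈ cube d 0 ((X.L : ℤ) - 1) := (hEc _ h5).1
          exact cell_eq hL1 (x := e.1 + pos X.L z) (by simpa using (hEc _ he).1) h7
        subst h6
        exact hzA ((memA z).2 ⟨h3, h4⟩)
      have h3 := h2 p1 p0 hMz
      rw [ext_of_mem _ (hVD z _ hp1V), ext_of_mem _ (hVD z _ hp0V)] at h3
      have hout : ∀ v ∈ X.V, ∀ i ∈ A, v + pos X.L z ∉ shV (pos X.L i) (X.V \ X.T) := by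
        intro v hv i hi h4
        have h5 : z = i := cell_eq hL1 (x := v + pos X.L z)
          (by simpa using hVc v hv) (hcellz i _ (mem_shV.2
            (Finset.mem_sdiff.1 (mem_shV.1 h4)).1))
        exact hzA (h5 ▸ hi)
      simp only at h3
      rw [hw3 _ (hout p1 hp1V), hw3 _ (hout p0 hp0V)] at h3
      exact hne h3
  -- choice of `N`
  obtain ⟨N, hN⟩ := exists_nat_gt (2 * d * (X.L : ℝ) ^ (d - 1) / (ε * η))
  have hN1 : 1 ≤ N := by
    rcases Nat.eq_zero_or_pos N with h | h
    · exfalso
      rw [h] at hN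
      have : (0 : ℝ) ≤ 2 * d * (X.L : ℝ) ^ (d - 1) / (ε * η) := by positivity
      simp only [Nat.cast_zero] at hN
      linarith
    · exact h
  have hNpos : (0 : ℝ) < N := by exact_mod_cast hN1
  refine ⟨N * X.L, ?_⟩
  have h1 := main N hN1
  rw [div_lt_iff₀ (by positivity)] at hN
  have hpow : (N : ℝ) ^ d = (N : ℝ) ^ (d - 1) * N := by
    rw [← pow_succ]
    congr 1
    omega
  have hNp : (0 : ℝ) < (N : ℝ) ^ (d - 1) := by positivity
  rw [mul_pow, hpow] at h1
  set P := (perc d p).real {ω | ω ∈ X.G ∧ ω ∈ R ∧ ∃ u, HarC (N * X.L) ω u ∧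
      ¬ Flat q ω X.T X.E u} with hPdef
  by_contra hcon
  push Not at hcon
  have h2 : P * (ε * N) ≤ 2 * d * (X.L : ℝ) ^ (d - 1) := by
    have h3 : (P * (ε * N)) * (N : ℝ) ^ (d - 1) ≤ (2 * d * (X.L : ℝ) ^ (d - 1)) *
        (N : ℝ) ^ (d - 1) := by
      nlinarith [h1]
    exact le_of_mul_le_mul_right h3 hNp
  have h4 : η * (ε * N) < P * (ε * N) := mul_lt_mul_of_pos_right hcon (by positivity)
  nlinarith

end Pool.Agent.TH974.IHG
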