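import Mathlib
import Pool.Agent.TH974.IH.Box
import Pool.Agent.TH974.IH.GM
import Pool.Agent.TH209.J2154
import Pool.Agent.TH554.J2165
import Pool.Agent.TH645.J2185
import Pool.Agent.TH740.J2356
import Pool.Agent.TH914.J2193
import Pool.Agent.TH914.J2194
import Pool.Agent.TH914.J2371
import Pool.Agent.TH914.J2372
import Pool.Agent.TH209.J2164
import Pool.Agent.TH974.IH.S1P

set_option autoImplicit false

open Finset MeasureTheory ProbabilityTheory Filter Topology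
open scoped ENNReal NNReal

/-! Project IH (MP_79dc3a_pr): the stages of the proof and the almost sure statement. -/

namespace Pool.Agent.TH974.IHA

open Pool.Agent.TH974.IH
open Pool.Agent.TH209.IH3 (gad_of_net)
open Pool.Agent.TH554.J2165 (X1_OK X2_OK)
open Pool.Agent.TH645.IH (perc_prob)
open Pool.Agent.TH740.J2356 (TLP)
open Pool.Agent.TH974.IHG (GM S1P)
open Pool.Agent.TH209.IH4 (conn_faces)


theorem mem_Rm {d K : ℕ} {x : Zd d} : x ∈ Rm d K ↔ ∀ i, 2 ≤ x i ∧ x i ≤ (K : ℤ) + 3 := by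
  simp [Rm, cube, Fintype.mem_piFinset, Finset.mem_Icc]

theorem mem_Fc {d K : ℕ} {x : Zd d} : x ∈ Fc d K ↔ (∀ i, 1 ≤ x i ∧ x i ≤ (K : ℤ) + 4) ∧ nex K x = 1 := by
  simp [Fc, cube, Fintype.mem_piFinset, Finset.mem_Icc]

theorem Rm_Fc {d K : ℕ} {x : Zd d} (hx : x ∈ Fc d K) : x ∉ Rm d K := by
  rw [mem_Fc] at hx
  rw [mem_Rm]
  intro h
  have h1 := hx.2
  unfold nex at h1
  rw [Finset.card_eq_one] at h1
  obtain ⟨i, hi⟩ := h1
  have : i ∈ Finset.univ.filter (fun i => x i = 1 ∨ x i = (K : ℤ) + 4) := by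
    rw [hi]; exact Finset.mem_singleton_self i
  simp only [Finset.mem_filter, Finset.mem_univ, true_and] at this
  have := h i
  omega

theorem dep_Apath {d : ℕ} (E : Finset (Ed d)) (pl : List (Zd d)) :
    Dep (E : Set (Ed d)) (Apath E pl) := by
  intro ω ω' h
  constructor
  · intro hω e he
    rw [← h e he]
    exact hω e he
  · intro hω e he
    rw [h e he]
    exact hω e he

theorem stage1 (D m : ℕ) (hD : 1 ≤ D) (hm : 1 ≤ m) (p : ℝ) (hp0 : 0 < p) (hp1 : p < 1)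
    (x y : Zd (D + 1)) (hx : x ∈ Fc (D + 1) (KK m)) (hy : y ∈ Fc (D + 1) (KK m))
    (pl : List (Zd (D + 1))) (hpl : IsP (Rm (D + 1) (KK m)) pl x y) (α : ℝ) (hα : 0 < α)
    (hα' : α ≤ (perc (D + 1) p).real (Apath (X1 (D + 1) (KK m) x y).E pl))
    (N : ℕ) (hN : 1 ≤ N) :
    ∃ df : ℕ → ℝ, (∀ q, 0 ≤ df q) ∧
      (∀ Q : Finset ℕ, (∀ q ∈ Q, q.Prime) →
        ∑ q ∈ Q, df q * Real.log q ≤ (N * ((KK m + 6 : ℕ) : ℝ)) ^ (D + 1) *
          Real.log (4 * ((D + 1 : ℕ) : ℝ))) ∧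
      ∀ q : ℕ, q.Prime → (∃ S E, GD adjd S E x y ((pl.length : ℚ) - 1) q ∧
          (∀ v ∈ S, v = x ∨ v = y ∨ v ∈ Rm (D + 1) (KK m)) ∧
          ∀ e ∈ E, e.1 ∈ Rm (D + 1) (KK m) ∨ e.2 ∈ Rm (D + 1) (KK m)) →
        ∀ η : ℝ, 0 < η → ∃ r : ℕ, (perc (D + 1) p).real {ω | ω ∈ (X1 (D + 1) (KK m) x y).G ∧
          ∃ u, HarC r ω u ∧ (u x : ZMod q) ≠ u y} ≤
          η + (2 * ((D + 1 : ℕ) : ℝ) * (N * ((KK m + 6 : ℕ) : ℝ)) ^ D + df q) /
            (α * (N : ℝ) ^ (D + 1)) := by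
  set K := KK m with hK
  have hK1 : 1 ≤ K := by rw [hK, KK]; omega
  set X := X1 (D + 1) K x y with hXdef
  have hX : X.OK := X1_OK K hK1 x y hx hy
  have hVT : X.V \ X.T = Rm (D + 1) K := by
    have hxR := Rm_Fc hx
    have hyR := Rm_Fc hy
    ext v
    simp only [hXdef, X1, Finset.mem_sdiff, Finset.mem_union, Finset.mem_insert,
      Finset.mem_singleton, not_or]
    constructor
    · rintro ⟨h1 | h1, h2⟩
      · exact h1
      · rcases h1 with h1 | h1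
        · exact absurd h1 h2.1
        · exact absurd h1 h2.2
    · intro h
      refine ⟨Or.inl h, ?_, ?_⟩
      · rintro rfl; exact hxR h
      · rintro rfl; exact hyR h
  obtain ⟨df, hdf0, hdf1, hdf2⟩ := TLP (d := D + 1) (by omega) p hp0 hp1 X hX
    (by show 2 ≤ K + 6; omega) (Apath X.E pl) (dep_Apath _ _) (fun _ a b => a = x ∧ b = y)
    (fun _ _ _ _ _ h => h)
    (fun _ a b h => by
      obtain ⟨rfl, rfl⟩ := h
      constructor <;> simp [hXdef, X1])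
    (fun ω a b hω h => by
      obtain ⟨rfl, rfl⟩ := h
      have hω' : ω ∈ (X1 (D + 1) K a b).G := hω
      exact conn_faces (by omega) K hK1 ω hω'.1 hω'.2.1 a b hx hy)
    α hα hα' N hN
  refine ⟨df, hdf0, hdf1, ?_⟩
  intro q hq hgad η hη
  obtain ⟨S, E, hGD, hS, hE⟩ := hgad
  have hlen : 3 ≤ pl.length := hpl.len
  have hcast : ((pl.length - 1 : ℕ) : ℚ) = (pl.length : ℚ) - 1 := by
    rw [Nat.cast_sub (by omega)]; simp
  have hdE : ∀ e : Ed (D + 1), adjd e.1 (hd e) := fun e => ⟨e.2, Or.inl rfl⟩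
  have hXE : ∀ e : Ed (D + 1), (e.1 = x ∨ e.1 = y ∨ e.1 ∈ Rm (D + 1) K) →
      (hd e = x ∨ hd e = y ∨ hd e ∈ Rm (D + 1) K) →
      (e.1 ∈ Rm (D + 1) K ∨ hd e ∈ Rm (D + 1) K) → e ∈ X.E := by
    intro e h1 h2 h3
    simp only [hXdef, X1, eds, Finset.mem_filter, Finset.mem_product, Finset.mem_univ,
      and_true, Finset.mem_union, Finset.mem_insert, Finset.mem_singleton]
    exact ⟨⟨by tauto, by tauto⟩, h3⟩
  obtain ⟨β, hβ⟩ := gad_of_net (Rm (D + 1) K) x y (pl.length - 1) q S E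
    (by rw [hcast]; exact hGD) hS X.E (by
      intro e he
      rcases he with he | he
      · have h1 := hGD.1.1.mem _ he
        exact hXE e (hS _ h1.1) (hS _ h1.2) (hE _ he)
      · have h1 := hGD.1.1.mem _ he
        exact hXE e (hS _ h1.2) (hS _ h1.1) (hE _ he).symm)
  have hpl' : IsP (X.V \ X.T) pl x y := by rw [hVT]; exact hpl
  have honp : ∀ e, onp pl e → e ∈ X.E := by
    intro e he
    have key : ∀ a b : Zd (D + 1), [a, b] <:+: pl → (a ∈ pl ∧ b ∈ pl) ∧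
        (a ∈ Rm (D + 1) K ∨ b ∈ Rm (D + 1) K) := by
      intro a b hab
      have ha : a ∈ pl := hab.subset (by simp)
      have hb : b ∈ pl := hab.subset (by simp)
      refine ⟨⟨ha, hb⟩, ?_⟩
      by_contra hcon
      push Not at hcon
      have ha' : a = x ∨ a = y := by
        rcases hpl.mem a ha with h | h | h
        · exact Or.inl h
        · exact Or.inr h
        · exact absurd h hcon.1
      have hb' : b = x ∨ b = y := by
        rcases hpl.mem b hb with h | h | h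
        · exact Or.inl h
        · exact Or.inr h
        · exact absurd h hcon.2
      obtain ⟨s, t, hst⟩ := hab
      have hnd := hpl.nodup
      have hhead := hpl.head
      have hlast := hpl.last
      rw [← hst] at hnd hhead hlast
      have hl2 : 3 ≤ (s ++ [a, b] ++ t).length := by rw [hst]; exact hlen
      have hxa : s = [] ∨ (a ≠ x ∧ b ≠ x) := by
        rcases s with _ | ⟨s0, s'⟩
        · exact Or.inl rfl
        · right
          simp only [List.cons_append, List.head?_cons, Option.some.injEq] at hhead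
          subst hhead
          simp only [List.cons_append, List.nodup_cons, List.mem_append, List.mem_cons,
            List.not_mem_nil, or_false, not_or] at hnd
          exact ⟨fun h => hnd.1.1.2.1 h.symm, fun h => hnd.1.1.2.2 h.symm⟩
      have hya : t = [] ∨ (a ≠ y ∧ b ≠ y) := by
        rcases List.eq_nil_or_concat t with h | ⟨t', t0, h⟩
        · exact Or.inl h
        · right
          subst h
          have h1 : (s ++ [a, b] ++ t'.concat t0) = (s ++ [a, b] ++ t') ++ [t0] := by simp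
          rw [h1] at hlast hnd
          rw [List.getLast?_append] at hlast
          simp only [List.getLast?_singleton, Option.some_or, Option.some.injEq] at hlast
          subst hlast
          rw [List.nodup_append] at hnd
          refine ⟨fun h => ?_, fun h => ?_⟩
          · exact hnd.2.2 a (by simp) t0 (by simp) h
          · exact hnd.2.2 b (by simp) t0 (by simp) h
      have hab' : a ≠ b := by
        rintro rfl
        rw [List.nodup_append, List.nodup_append] at hnd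
        simpa using hnd.1.2.1
      rcases hxa with hs | hs
      · rcases hya with ht | ht
        · subst hs; subst ht
          simp at hl2
        · rcases ha' with h1 | h1
          · rcases hb' with h2 | h2
            · exact hab' (h1.trans h2.symm)
            · exact ht.2 h2
          · exact ht.1 h1
      · rcases hya with ht | ht
        · rcases ha' with h1 | h1
          · exact hs.1 h1
          · rcases hb' with h2 | h2
            · exact hs.2 h2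
            · exact hab' (h1.trans h2.symm)
        · rcases ha' with h1 | h1
          · exact hs.1 h1
          · exact ht.1 h1
    rcases he with he | he
    · obtain ⟨⟨h1, h2⟩, h3⟩ := key _ _ he
      exact hXE e (hpl.mem _ h1) (hpl.mem _ h2) h3
    · obtain ⟨⟨h1, h2⟩, h3⟩ := key _ _ he
      exact hXE e (hpl.mem _ h2) (hpl.mem _ h1) h3.symm
  have hN0 : (0 : ℝ) < (N : ℝ) ^ (D + 1) + 1 := by positivity
  obtain ⟨r0, hr0⟩ := S1P (d := D + 1) (by omega) p hp0 hp1 X hX (by show 2 ≤ K + 6; omega)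
    x y rfl pl hpl' honp q hq β (by rw [hVT]; exact hβ) (η / ((N : ℝ) ^ (D + 1) + 1))
    (by positivity)
  obtain ⟨r1, hr1⟩ := hdf2 q hq r0 _ hr0
  refine ⟨max r0 r1, ?_⟩
  have : IsProbabilityMeasure (perc (D + 1) p) := perc_prob p hp0.le hp1.le
  have hmono : ∀ (r : ℕ), r ≤ max r0 r1 → ∀ ω (u : Zd (D + 1) → ℤ), HarC (max r0 r1) ω u →
      HarC r ω u := by
    intro r hr ω u hu v hv
    refine hu v ?_
    simp only [cube, Fintype.mem_piFinset, Finset.mem_Icc] at hv ⊢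
    intro i
    have := hv i
    have h2 : (r : ℤ) ≤ ((max r0 r1 : ℕ) : ℤ) := by exact_mod_cast hr
    constructor <;> omega
  have hsub : {ω | ω ∈ X.G ∧ ∃ u, HarC (max r0 r1) ω u ∧ (u x : ZMod q) ≠ u y} ⊆
      {ω | ω ∈ X.G ∧ ω ∈ Apath X.E pl ∧ ∃ u, HarC r0 ω u ∧ ¬ Flat q ω X.T X.E u} ∪
      {ω | ω ∈ X.G ∧ ω ∉ Apath X.E pl ∧ ∃ u, HarC r1 ω u ∧
        ∃ a b, (a = x ∧ b = y) ∧ (u a : ZMod q) ≠ u b} := by
    rintro ω ⟨hG, u, hu, hne⟩
    by_cases hA : ω ∈ Apath X.E pl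
    · left
      refine ⟨hG, hA, u, hmono r0 (le_max_left _ _) ω u hu, ?_⟩
      intro hfl
      exact hne (hfl.1 x (by simp [hXdef, X1]) y (by simp [hXdef, X1]))
    · right
      exact ⟨hG, hA, u, hmono r1 (le_max_right _ _) ω u hu, x, y, ⟨rfl, rfl⟩, hne⟩
  calc (perc (D + 1) p).real _ ≤ _ := measureReal_mono hsub
    _ ≤ _ := measureReal_union_le _ _
    _ ≤ η / ((N : ℝ) ^ (D + 1) + 1) + ((N : ℝ) ^ (D + 1) * (η / ((N : ℝ) ^ (D + 1) + 1)) +
        (2 * ((D + 1 : ℕ) : ℝ) * (N * ((K + 6 : ℕ) : ℝ)) ^ (D + 1 - 1) + df q) /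
          (α * (N : ℝ) ^ (D + 1))) := add_le_add hr0 hr1
    _ = _ := by
      have : D + 1 - 1 = D := by omega
      rw [this]
      have h3 : η / ((N : ℝ) ^ (D + 1) + 1) + (N : ℝ) ^ (D + 1) * (η / ((N : ℝ) ^ (D + 1) + 1)) = η := by
        field_simp
        ring
      rw [← add_assoc, h3]

theorem mem_eds {d : ℕ} {V : Finset (Zd d)} {e : Ed d} : e ∈ eds V ↔ e.1 ∈ V ∧ hd e ∈ V := by
  simp [eds, Finset.mem_filter, Finset.mem_product]

theorem VF_cell {d K : ℕ} {v : Zd d} (hv : v ∈ Rm d K ∪ Fc d K) :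
    v ∈ cube d 0 (((K + 6 : ℕ) : ℤ) - 1) := by
  simp only [cube, Fintype.mem_piFinset, Finset.mem_Icc]
  intro i
  rw [Finset.mem_union, mem_Rm, mem_Fc] at hv
  push_cast
  rcases hv with hv | hv
  · have := hv i; constructor <;> omega
  · have := hv.1 i; constructor <;> omega

theorem dep_SR {d : ℕ} (K : ℕ) : Dep ((X2 d K).E : Set (Ed d)) (SR d K) := by
  have h1 : ∀ e ∈ EF d K, e ∈ ((X2 d K).E : Set (Ed d)) := by
    intro e he
    simp only [X2, Finset.mem_coe, mem_eds, Finset.mem_union]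
    exact ⟨Or.inr he.1, Or.inr he.2⟩
  have h2 : ∀ e ∈ EX d K, e ∈ ((X2 d K).E : Set (Ed d)) := by
    intro e he
    simp only [X2, Finset.mem_coe, mem_eds, Finset.mem_union]
    rcases he with he | he
    · exact ⟨Or.inl he.1, Or.inr he.2⟩
    · exact ⟨Or.inr he.1, Or.inl he.2⟩
  intro ω ω' h
  constructor
  · intro hω
    exact ⟨fun e he => by rw [← h e (h1 e he)]; exact hω.1 e he,
      fun e he => by rw [← h e (h2 e he)]; exact hω.2 e he⟩
  · intro hω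
    exact ⟨fun e he => by rw [h e (h1 e he)]; exact hω.1 e he,
      fun e he => by rw [h e (h2 e he)]; exact hω.2 e he⟩

/-- if the faces are monochromatic in the event `SR` then the box is flat -/
theorem flat_SR {d : ℕ} (K q : ℕ) (ω : Env d) (hω : ω ∈ SR d K) (u : Zd d → ℤ) (x0 : Zd d)
    (h : ∀ x ∈ Fc d K, (u x : ZMod q) = u x0) : Flat q ω (X2 d K).T (X2 d K).E u := by
  refine ⟨fun x hx y hy => (h x hx).trans (h y hy).symm, ?_⟩
  intro x hx
  have hx' : x ∈ Fc d K := hx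
  unfold flx
  rw [Int.cast_sum]
  refine Finset.sum_eq_zero ?_
  intro e he
  have he' : e.1 ∈ Rm d K ∪ Fc d K ∧ hd e ∈ Rm d K ∪ Fc d K := mem_eds.1 he
  by_cases ho : ω e = true
  · rw [if_pos ho]
    have hne : e ∉ EX d K := fun hc => by
      have := hω.2 e hc
      rw [ho] at this
      exact absurd this (by decide)
    have key : (e.1 = x ∨ hd e = x) → (u (hd e) : ZMod q) = u e.1 := by
      intro hor
      rw [Finset.mem_union, Finset.mem_union] at he'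
      have hF : e.1 ∈ Fc d K ∧ hd e ∈ Fc d K := by
        rcases hor with h1 | h1
        · have h2 : e.1 ∈ Fc d K := by rw [h1]; exact hx'
          refine ⟨h2, ?_⟩
          rcases he'.2 with h3 | h3
          · exact absurd (Or.inr ⟨h2, h3⟩) hne
          · exact h3
        · have h2 : hd e ∈ Fc d K := by rw [h1]; exact hx'
          refine ⟨?_, h2⟩
          rcases he'.1 with h3 | h3
          · exact absurd (Or.inl ⟨h3, h2⟩) hne
          · exact h3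
      rw [h _ hF.1, h _ hF.2]
    by_cases h1 : e.1 = x
    · by_cases h2 : hd e = x
      · have hk := key (Or.inl h1)
        rw [if_pos h1, if_pos h2, h1, h2]
        simp
      · rw [if_pos h1, if_neg h2]
        have hk := key (Or.inl h1)
        rw [h1] at hk
        push_cast
        rw [hk]; ring
    · by_cases h2 : hd e = x
      · rw [if_neg h1, if_pos h2]
        have hk := key (Or.inr h2)
        rw [h2] at hk
        push_cast
        rw [hk]; ring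
      · rw [if_neg h1, if_neg h2]; simp
  · rw [if_neg ho]; simp

theorem SR_G1 {d : ℕ} (K : ℕ) (ω : Env d) (hω : ω ∈ SR d K) (hG : ω ∈ (X2 d K).G) (x y : Zd d) :
    ω ∈ (X1 d K x y).G :=
  ⟨hG, hω.1, fun e he _ _ _ _ => hω.2 e he⟩

theorem HarC_mono {d : ℕ} {r r' : ℕ} (h : r ≤ r') {ω : Env d} {u : Zd d → ℤ} (hu : HarC r' ω u) :
    HarC r ω u := by
  intro v hv
  refine hu v ?_
  simp only [cube, Fintype.mem_piFinset, Finset.mem_Icc] at hv ⊢
  intro i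
  have := hv i
  have h2 : (r : ℤ) ≤ (r' : ℤ) := by exact_mod_cast h
  constructor <;> omega

theorem stage2 (D m : ℕ) (hD : 1 ≤ D) (hm : 4 ≤ m) (p : ℝ) (hp0 : 0 < p) (hp1 : p < 1)
    (α : ℝ) (hα : 0 < α)
    (hα1 : ∀ (x y : Zd (D + 1)) (pl : List (Zd (D + 1))),
      pl.length ≤ 2 * (D + 1) * (KK m + 2) ^ D + c0 + 20 →
      α ≤ (perc (D + 1) p).real (Apath (X1 (D + 1) (KK m) x y).E pl))
    (hα2 : α ≤ (perc (D + 1) p).real (SR (D + 1) (KK m))) (N₁ N₂ : ℕ) (hN₁ : 1 ≤ N₁)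
    (hN₂ : 1 ≤ N₂) :
    ∃ T : ℕ → ℝ, (∀ q, 0 ≤ T q) ∧
      (∀ Q : Finset ℕ, (∀ q ∈ Q, q.Prime) →
        ∑ q ∈ Q, T q * Real.log q ≤ (((Fc (D + 1) (KK m)).card : ℝ) + 1) *
          (((KK m + 6 : ℕ) : ℝ) ^ (D + 1) * Real.log (4 * ((D + 1 : ℕ) : ℝ)))) ∧
      ∀ q : ℕ, q.Prime → c0 < q → q ≤ 4 ^ (m ^ (D + 1)) → ∀ ε : ℝ, 0 < ε → ∃ r : ℕ,
        (perc (D + 1) p).real {ω | ω ∈ (X2 (D + 1) (KK m)).G ∧ ω ∉ SR (D + 1) (KK m) ∧
          ∃ u, HarC r ω u ∧ ∃ e ∈ (X2 (D + 1) (KK m)).E, ω e = true ∧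
            (u e.1 : ZMod q) ≠ u (hd e)} ≤
          (N₂ : ℝ) ^ (D + 1) * (((Fc (D + 1) (KK m)).card : ℝ) *
            (ε + 2 * ((D + 1 : ℕ) : ℝ) * ((KK m + 6 : ℕ) : ℝ) ^ D / (α * N₁) + T q / α)) +
          2 * ((D + 1 : ℕ) : ℝ) * ((KK m + 6 : ℕ) : ℝ) ^ D / (α * N₂) + T q / α := by
  obtain ⟨x0, hx0, hGM⟩ := GM D m hD hm
  set K := KK m with hK
  have hK1 : 1 ≤ K := by rw [hK, KK]; omega
  have : IsProbabilityMeasure (perc (D + 1) p) := perc_prob p hp0.le hp1.le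
  set F' := (Fc (D + 1) K).erase x0 with hF'
  have hstage : ∀ x : Zd (D + 1), ∃ df : ℕ → ℝ, (∀ q, 0 ≤ df q) ∧
      (∀ Q : Finset ℕ, (∀ q ∈ Q, q.Prime) →
        ∑ q ∈ Q, df q * Real.log q ≤ (N₁ * ((K + 6 : ℕ) : ℝ)) ^ (D + 1) *
          Real.log (4 * ((D + 1 : ℕ) : ℝ))) ∧
      (x ∈ F' → ∀ q : ℕ, q.Prime → c0 < q → q ≤ 4 ^ (m ^ (D + 1)) →
        ∀ η : ℝ, 0 < η → ∃ r : ℕ, (perc (D + 1) p).real {ω | ω ∈ (X1 (D + 1) K x x0).G ∧
          ∃ u, HarC r ω u ∧ (u x : ZMod q) ≠ u x0} ≤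
          η + (2 * ((D + 1 : ℕ) : ℝ) * (N₁ * ((K + 6 : ℕ) : ℝ)) ^ D + df q) /
            (α * (N₁ : ℝ) ^ (D + 1))) := by
    intro x
    by_cases hx : x ∈ F'
    · have hx' := Finset.mem_erase.1 hx
      obtain ⟨pl, hpl, hlen, hgad⟩ := hGM x hx'.2 hx'.1
      obtain ⟨df, h0, h1, h2⟩ := stage1 D m hD (by omega) p hp0 hp1 x x0 hx'.2 hx0 pl hpl α hα
        (hα1 x x0 pl hlen) N₁ hN₁
      exact ⟨df, h0, h1, fun _ q hq hq1 hq2 η hη => h2 q hq (hgad q hq hq1 hq2) η hη⟩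
    · refine ⟨fun _ => 0, fun _ => le_rfl, fun Q hQ => ?_, fun h => absurd h hx⟩
      simp only [zero_mul, Finset.sum_const_zero]
      have : (0 : ℝ) ≤ Real.log (4 * ((D + 1 : ℕ) : ℝ)) := by
        apply Real.log_nonneg
        push_cast
        nlinarith [(Nat.cast_nonneg D : (0 : ℝ) ≤ D)]
      positivity
  choose df₁ hdf0 hdf1 hdf2 using hstage
  set X := X2 (D + 1) K with hXdef
  have hEcell : ∀ e ∈ X.E, e ∈ cedges (D + 1) 0 ((X.L : ℤ) - 1) := by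
    intro e he
    have he' := mem_eds.1 he
    exact ⟨VF_cell he'.1, VF_cell he'.2⟩
  obtain ⟨df₂, hd20, hd21, hd22⟩ := TLP (d := D + 1) (by omega) p hp0 hp1 X (X2_OK K hK1)
    (by show 2 ≤ K + 6; omega) (SR (D + 1) K) (dep_SR K)
    (fun ω a b => ∃ e ∈ X.E, ω e = true ∧ e.1 = a ∧ hd e = b)
    (by
      rintro ω ω' a b h ⟨e, he, ho, h1, h2⟩
      exact ⟨e, he, by rw [← h e (hEcell e he)]; exact ho, h1, h2⟩)
    (by
      rintro ω a b ⟨e, he, ho, rfl, rfl⟩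
      exact mem_eds.1 he)
    (by
      rintro ω a b hG ⟨e, he, ho, rfl, rfl⟩
      exact Relation.ReflTransGen.single ⟨e, hEcell e he, ho, Or.inl ⟨rfl, rfl⟩⟩)
    α hα hα2 N₂ hN₂
  have hN₁' : (0 : ℝ) < N₁ := by exact_mod_cast hN₁
  have hN₂' : (0 : ℝ) < N₂ := by exact_mod_cast hN₂
  set L : ℝ := ((K + 6 : ℕ) : ℝ) with hLdef
  have hXL : (X.L : ℝ) = L := rfl
  set T : ℕ → ℝ := fun q => ∑ x ∈ F', df₁ x q / (N₁ : ℝ) ^ (D + 1) + df₂ q / (N₂ : ℝ) ^ (D + 1)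
    with hT
  have hT1 : ∀ q, 0 ≤ ∑ x ∈ F', df₁ x q / (N₁ : ℝ) ^ (D + 1) := fun q =>
    Finset.sum_nonneg fun x _ => div_nonneg (hdf0 x q) (by positivity)
  have hT2 : ∀ q, 0 ≤ df₂ q / (N₂ : ℝ) ^ (D + 1) := fun q => div_nonneg (hd20 q) (by positivity)
  refine ⟨T, fun q => add_nonneg (hT1 q) (hT2 q), ?_, ?_⟩
  · intro Q hQ
    have e1 : ∑ q ∈ Q, T q * Real.log q = ∑ x ∈ F', (∑ q ∈ Q, df₁ x q * Real.log q) /
        (N₁ : ℝ) ^ (D + 1) + (∑ q ∈ Q, df₂ q * Real.log q) / (N₂ : ℝ) ^ (D + 1) := by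
      simp only [hT, add_mul, Finset.sum_add_distrib, Finset.sum_mul, Finset.sum_div]
      congr 1
      · rw [Finset.sum_comm]
        refine Finset.sum_congr rfl fun x _ => Finset.sum_congr rfl fun q _ => by ring
      · refine Finset.sum_congr rfl fun q _ => by ring
    rw [e1]
    have e2 : ∀ x ∈ F', (∑ q ∈ Q, df₁ x q * Real.log q) / (N₁ : ℝ) ^ (D + 1) ≤
        L ^ (D + 1) * Real.log (4 * ((D + 1 : ℕ) : ℝ)) := by
      intro x _
      rw [div_le_iff₀ (by positivity)]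
      refine (hdf1 x Q hQ).trans (le_of_eq ?_)
      rw [mul_pow]; ring
    have e3 : (∑ q ∈ Q, df₂ q * Real.log q) / (N₂ : ℝ) ^ (D + 1) ≤
        L ^ (D + 1) * Real.log (4 * ((D + 1 : ℕ) : ℝ)) := by
      rw [div_le_iff₀ (by positivity)]
      refine (hd21 Q hQ).trans (le_of_eq ?_)
      rw [hXL, mul_pow]; ring
    have hlog : (0 : ℝ) ≤ L ^ (D + 1) * Real.log (4 * ((D + 1 : ℕ) : ℝ)) := by
      have : (0 : ℝ) ≤ Real.log (4 * ((D + 1 : ℕ) : ℝ)) := by
        apply Real.log_nonneg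
        push_cast
        nlinarith [(Nat.cast_nonneg D : (0 : ℝ) ≤ D)]
      positivity
    have e4 := Finset.sum_le_card_nsmul F' _ _ e2
    rw [nsmul_eq_mul] at e4
    have e5 : ((F'.card : ℕ) : ℝ) ≤ ((Fc (D + 1) K).card : ℝ) := by
      exact_mod_cast Finset.card_le_card (Finset.erase_subset _ _)
    calc _ ≤ (F'.card : ℝ) * (L ^ (D + 1) * Real.log (4 * ((D + 1 : ℕ) : ℝ))) +
        L ^ (D + 1) * Real.log (4 * ((D + 1 : ℕ) : ℝ)) := add_le_add e4 e3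
      _ ≤ _ := by nlinarith [mul_le_mul_of_nonneg_right e5 hlog]
  · intro q hq hq1 hq2 ε hε
    have hr : ∀ x : Zd (D + 1), ∃ r : ℕ, x ∈ F' → (perc (D + 1) p).real
        {ω | ω ∈ (X1 (D + 1) K x x0).G ∧ ∃ u, HarC r ω u ∧ (u x : ZMod q) ≠ u x0} ≤
          ε + (2 * ((D + 1 : ℕ) : ℝ) * (N₁ * L) ^ D + df₁ x q) / (α * (N₁ : ℝ) ^ (D + 1)) := by
      intro x
      by_cases hx : x ∈ F'
      · obtain ⟨r, h⟩ := hdf2 x hx q hq hq1 hq2 ε hε
        exact ⟨r, fun _ => h⟩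
      · exact ⟨0, fun h => absurd h hx⟩
    choose rr hrr using hr
    set r0 := F'.sup rr with hr0
    set B : ℝ := ε + 2 * ((D + 1 : ℕ) : ℝ) * L ^ D / (α * N₁) + T q / α with hB
    have hTq : 0 ≤ T q := add_nonneg (hT1 q) (hT2 q)
    have hBx : ∀ x ∈ F', ε + (2 * ((D + 1 : ℕ) : ℝ) * (N₁ * L) ^ D + df₁ x q) /
        (α * (N₁ : ℝ) ^ (D + 1)) ≤ B := by
      intro x hx
      have h1 : df₁ x q / (N₁ : ℝ) ^ (D + 1) ≤ T q := by
        have := Finset.single_le_sum (f := fun x => df₁ x q / (N₁ : ℝ) ^ (D + 1))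
          (fun y _ => div_nonneg (hdf0 y q) (by positivity)) hx
        have h' := hT2 q
        simp only [hT]
        linarith
      have h2 : (2 * ((D + 1 : ℕ) : ℝ) * (N₁ * L) ^ D + df₁ x q) / (α * (N₁ : ℝ) ^ (D + 1)) =
          2 * ((D + 1 : ℕ) : ℝ) * L ^ D / (α * N₁) + (df₁ x q / (N₁ : ℝ) ^ (D + 1)) / α := by
        rw [mul_pow, pow_succ]
        field_simp
      have h3 : (df₁ x q / (N₁ : ℝ) ^ (D + 1)) / α ≤ T q / α :=
        div_le_div_of_nonneg_right h1 hα.le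
      rw [h2, hB]
      linarith
    have hδ : (perc (D + 1) p).real {ω | ω ∈ X.G ∧ ω ∈ SR (D + 1) K ∧
        ∃ u, HarC r0 ω u ∧ ¬ Flat q ω X.T X.E u} ≤ ((Fc (D + 1) K).card : ℝ) * B := by
      have hsub : {ω | ω ∈ X.G ∧ ω ∈ SR (D + 1) K ∧ ∃ u, HarC r0 ω u ∧ ¬ Flat q ω X.T X.E u} ⊆
          ⋃ x ∈ F', {ω | ω ∈ (X1 (D + 1) K x x0).G ∧
            ∃ u, HarC (rr x) ω u ∧ (u x : ZMod q) ≠ u x0} := by
        rintro ω ⟨hG, hS, u, hu, hfl⟩
        have : ∃ x ∈ Fc (D + 1) K, (u x : ZMod q) ≠ u x0 := by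
          by_contra hcon
          push Not at hcon
          exact hfl (flat_SR K q ω hS u x0 hcon)
        obtain ⟨x, hx, hne⟩ := this
        have hxx : x ≠ x0 := by rintro rfl; exact hne rfl
        have hxF : x ∈ F' := Finset.mem_erase.2 ⟨hxx, hx⟩
        simp only [Set.mem_iUnion]
        exact ⟨x, hxF, SR_G1 K ω hS hG x x0, u, HarC_mono (Finset.le_sup hxF) hu, hne⟩
      have hB0 : 0 ≤ B := by
        have : 0 ≤ 2 * ((D + 1 : ℕ) : ℝ) * L ^ D / (α * N₁) := by positivity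
        have h' : 0 ≤ T q / α := div_nonneg hTq hα.le
        rw [hB]; linarith
      calc _ ≤ _ := measureReal_mono hsub (measure_ne_top _ _)
        _ ≤ ∑ x ∈ F', _ := measureReal_biUnion_finset_le _ _
        _ ≤ ∑ x ∈ F', B := Finset.sum_le_sum fun x hx => (hrr x hx).trans (hBx x hx)
        _ = (F'.card : ℝ) * B := by rw [Finset.sum_const, nsmul_eq_mul]
        _ ≤ _ := by
          refine mul_le_mul_of_nonneg_right ?_ hB0
          exact_mod_cast Finset.card_le_card (Finset.erase_subset _ _)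
    obtain ⟨r1, hr1⟩ := hd22 q hq r0 _ hδ
    refine ⟨r1, ?_⟩
    have hset : {ω | ω ∈ X.G ∧ ω ∉ SR (D + 1) K ∧ ∃ u, HarC r1 ω u ∧ ∃ e ∈ X.E, ω e = true ∧
        (u e.1 : ZMod q) ≠ u (hd e)} ⊆ {ω | ω ∈ X.G ∧ ω ∉ SR (D + 1) K ∧ ∃ u, HarC r1 ω u ∧
          ∃ x y, (∃ e ∈ X.E, ω e = true ∧ e.1 = x ∧ hd e = y) ∧ (u x : ZMod q) ≠ u y} := by
      rintro ω ⟨h1, h2, u, h3, e, he, ho, hne⟩
      exact ⟨h1, h2, u, h3, _, _, ⟨e, he, ho, rfl, rfl⟩, hne⟩
    refine (measureReal_mono hset).trans (hr1.trans ?_)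
    have h1 : D + 1 - 1 = D := by omega
    rw [h1, hXL]
    have h2 : (2 * ((D + 1 : ℕ) : ℝ) * (N₂ * L) ^ D + df₂ q) / (α * (N₂ : ℝ) ^ (D + 1)) =
        2 * ((D + 1 : ℕ) : ℝ) * L ^ D / (α * N₂) + (df₂ q / (N₂ : ℝ) ^ (D + 1)) / α := by
      rw [mul_pow, pow_succ]
      field_simp
    have h3 : (df₂ q / (N₂ : ℝ) ^ (D + 1)) / α ≤ T q / α := by
      refine div_le_div_of_nonneg_right ?_ hα.le
      have := hT1 q
      simp only [hT]
      linarith
    rw [h2]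
    linarith



theorem STG (D m : ℕ) (hD : 1 ≤ D) (hm : 4 ≤ m) (p : ℝ) (hp0 : 0 < p) (hp1 : p < 1)
    (α : ℝ) (hα : 0 < α)
    (hα1 : ∀ (x y : Zd (D + 1)) (pl : List (Zd (D + 1))),
      pl.length ≤ 2 * (D + 1) * (KK m + 2) ^ D + c0 + 20 →
      α ≤ (perc (D + 1) p).real (Apath (X1 (D + 1) (KK m) x y).E pl))
    (hα2 : α ≤ (perc (D + 1) p).real (SR (D + 1) (KK m))) (N₂ : ℕ)
    (hN₂ : 1 ≤ N₂) (Q : Finset ℕ) (hQ : ∀ q ∈ Q, q.Prime ∧ c0 < q ∧ q ≤ 4 ^ (m ^ (D + 1)))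
    (hQ0 : Q.Nonempty) (ε : ℝ) (hε : 0 < ε) :
    ∃ q ∈ Q, ∃ r : ℕ,
      (perc (D + 1) p).real {ω | ω ∈ (X2 (D + 1) (KK m)).G ∧ ω ∉ SR (D + 1) (KK m) ∧
        ∃ u, HarC r ω u ∧ ∃ e ∈ (X2 (D + 1) (KK m)).E, ω e = true ∧
          (u e.1 : ZMod q) ≠ u (hd e)} ≤
        ε + 2 * ((D + 1 : ℕ) : ℝ) * ((KK m + 6 : ℕ) : ℝ) ^ D / (α * N₂) +
        ((N₂ : ℝ) ^ (D + 1) * ((Fc (D + 1) (KK m)).card : ℝ) + 1) *
          ((((Fc (D + 1) (KK m)).card : ℝ) + 1) *
            (((KK m + 6 : ℕ) : ℝ) ^ (D + 1) * Real.log (4 * ((D + 1 : ℕ) : ℝ))) /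
            (Q.card * Real.log 2)) / α := by
  set c : ℝ := ((Fc (D + 1) (KK m)).card : ℝ) with hc
  have hc0 : 0 ≤ c := Nat.cast_nonneg _
  set L : ℝ := ((KK m + 6 : ℕ) : ℝ) with hL
  have hL0 : 0 ≤ L := Nat.cast_nonneg _
  set A : ℝ := (N₂ : ℝ) ^ (D + 1) * c with hA
  have hA0 : 0 ≤ A := by positivity
  obtain ⟨N₁, hN₁⟩ := exists_nat_gt (max 1 (A * (2 * ((D + 1 : ℕ) : ℝ) * L ^ D / α) * (2 / ε)))
  have hN₁1 : (1 : ℝ) < N₁ := (le_max_left _ _).trans_lt hN₁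
  have hN₁2 := (le_max_right _ _).trans_lt hN₁
  have hN₁0 : (0 : ℝ) < N₁ := by linarith
  obtain ⟨T, hT0, hT1, hT2⟩ := stage2 D m hD hm p hp0 hp1 α hα hα1 hα2 N₁ N₂
    (by exact_mod_cast hN₁1.le) hN₂
  have hlog2 : 0 < Real.log 2 := Real.log_pos one_lt_two
  have hcard : (0 : ℝ) < Q.card := by exact_mod_cast hQ0.card_pos
  set C : ℝ := (c + 1) * (L ^ (D + 1) * Real.log (4 * ((D + 1 : ℕ) : ℝ))) with hC
  have hpig : ∃ q ∈ Q, T q ≤ C / (Q.card * Real.log 2) := by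
    by_contra hcon
    push Not at hcon
    have h1 : ∑ q ∈ Q, (C / (Q.card * Real.log 2)) * Real.log 2 < ∑ q ∈ Q, T q * Real.log q := by
      refine Finset.sum_lt_sum_of_nonempty hQ0 fun q hq => ?_
      have h2 := hcon q hq
      have h3 : Real.log 2 ≤ Real.log q :=
        Real.log_le_log two_pos (by exact_mod_cast (hQ q hq).1.two_le)
      calc (C / (Q.card * Real.log 2)) * Real.log 2 < T q * Real.log 2 :=
            mul_lt_mul_of_pos_right h2 hlog2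
        _ ≤ T q * Real.log q := mul_le_mul_of_nonneg_left h3 (hT0 q)
    rw [Finset.sum_const, nsmul_eq_mul] at h1
    have h4 : (Q.card : ℝ) * (C / (Q.card * Real.log 2) * Real.log 2) = C := by
      field_simp
    rw [h4] at h1
    exact absurd (hT1 Q fun q hq => (hQ q hq).1) (not_le.2 h1)
  obtain ⟨q, hq, hTq⟩ := hpig
  obtain ⟨hq1, hq2, hq3⟩ := hQ q hq
  obtain ⟨r, hr⟩ := hT2 q hq1 hq2 hq3 (ε / (2 * (A + 1))) (by positivity)
  refine ⟨q, hq, r, hr.trans ?_⟩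
  have h5 : A * (ε / (2 * (A + 1))) ≤ ε / 2 := by
    rw [← sub_nonneg]
    have : ε / 2 - A * (ε / (2 * (A + 1))) = ε / (2 * (A + 1)) := by
      field_simp
      ring
    rw [this]
    positivity
  have h6 : A * (2 * ((D + 1 : ℕ) : ℝ) * L ^ D / (α * N₁)) ≤ ε / 2 := by
    have h7 : A * (2 * ((D + 1 : ℕ) : ℝ) * L ^ D / (α * N₁)) =
        (A * (2 * ((D + 1 : ℕ) : ℝ) * L ^ D / α)) / N₁ := by
      field_simp
    rw [h7, div_le_iff₀ hN₁0]
    have h8 : A * (2 * ((D + 1 : ℕ) : ℝ) * L ^ D / α) =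
        A * (2 * ((D + 1 : ℕ) : ℝ) * L ^ D / α) * (2 / ε) * (ε / 2) := by
      field_simp
    rw [h8]
    nlinarith [mul_le_mul_of_nonneg_right hN₁2.le (by positivity : (0 : ℝ) ≤ ε / 2)]
  have h9 : (A + 1) * (T q / α) ≤ (A + 1) * (C / (Q.card * Real.log 2)) / α := by
    rw [mul_div_assoc]
    exact mul_le_mul_of_nonneg_left (div_le_div_of_nonneg_right hTq hα.le) (by positivity)
  calc _ = A * (ε / (2 * (A + 1))) + A * (2 * ((D + 1 : ℕ) : ℝ) * L ^ D / (α * N₁)) +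
        2 * ((D + 1 : ℕ) : ℝ) * L ^ D / (α * N₂) + (A + 1) * (T q / α) := by
        rw [hA]; ring
    _ ≤ _ := by linarith

theorem main1 (D : ℕ) (hD : 1 ≤ D) (p : ℝ) (hp0 : 0 < p) (hp1 : p < 1) :
    ∃ qs rs : ℕ → ℕ, (∀ᶠ m in atTop, m < qs m) ∧
      Tendsto (fun m => (perc (D + 1) p).real {ω | ω ∈ (X2 (D + 1) (KK m)).G ∧
        ∃ u, HarC (rs m) ω u ∧ ∃ e ∈ (X2 (D + 1) (KK m)).E, ω e = true ∧
          (u e.1 : ZMod (qs m)) ≠ u (hd e)}) atTop (𝓝 0) := by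
  obtain ⟨n0, hn0⟩ := many_primes
  have : IsProbabilityMeasure (perc (D + 1) p) := perc_prob p hp0.le hp1.le
  set θ := min p (1 - p) with hθ
  have hθ0 : 0 < θ := lt_min hp0 (by linarith)
  have hθ1 : θ ≤ 1 := (min_le_left _ _).trans hp1.le
  -- the bound
  set f : ℕ → ℝ := fun m => 1 / ((m : ℝ) + 1) + (2 * (D + 1) * (KK m + 6 : ℝ) ^ D) /
      (θ ^ (4 * (D + 1) ^ 2 * (KK m + 4) ^ D + 2 * (D + 1) * (c0 + 20)) *
        2 ^ (m ^ (D + 1) / (2 * (D + 1)))) +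
      (((2 : ℝ) ^ (m ^ (D + 1) / (2 * (D + 1)))) ^ (D + 1) * (2 * (D + 1) * (KK m + 4) ^ D) + 1) *
        ((2 * (D + 1) * (KK m + 4) ^ D + 1) * (KK m + 6) ^ (D + 1) * Real.log (4 * (D + 1)) /
          (2 ^ (m ^ (D + 1)) * Real.log 2)) /
      θ ^ (4 * (D + 1) ^ 2 * (KK m + 4) ^ D + 2 * (D + 1) * (c0 + 20)) + (1 - p) ^ (KK m) with hf
  have key : ∀ m : ℕ, max n0 4 ≤ m → ∃ q r : ℕ, m < q ∧
      (perc (D + 1) p).real {ω | ω ∈ (X2 (D + 1) (KK m)).G ∧
        ∃ u, HarC r ω u ∧ ∃ e ∈ (X2 (D + 1) (KK m)).E, ω e = true ∧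
          (u e.1 : ZMod q) ≠ u (hd e)} ≤ f m := by
    intro m hm
    have hm1 : n0 ≤ m := (le_max_left _ _).trans hm
    have hm2 : 4 ≤ m := (le_max_right _ _).trans hm
    set n := m ^ (D + 1) with hn
    have hmn : m ≤ n := Nat.le_self_pow (by omega) m
    set Q := (Finset.range (4 ^ n + 1)).filter fun q => q.Prime ∧ c0 < q ∧ n < q with hQdef
    have hQc : 2 ^ n ≤ Q.card := hn0 n (hm1.trans hmn)
    have hQ0 : Q.Nonempty := by
      rw [← Finset.card_pos]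
      exact lt_of_lt_of_le (by positivity) hQc
    have hQ : ∀ q ∈ Q, q.Prime ∧ c0 < q ∧ q ≤ 4 ^ (m ^ (D + 1)) := by
      intro q hq
      rw [hQdef, Finset.mem_filter, Finset.mem_range] at hq
      exact ⟨hq.2.1, hq.2.2.1, by rw [← hn]; omega⟩
    have hQn : ∀ q ∈ Q, m < q := by
      intro q hq
      rw [hQdef, Finset.mem_filter, Finset.mem_range] at hq
      omega
    set a := 4 * (D + 1) ^ 2 * (KK m + 4) ^ D + 2 * (D + 1) * (c0 + 20) with ha
    have hα : 0 < θ ^ a := pow_pos hθ0 a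
    have hα1 : ∀ (x y : Zd (D + 1)) (pl : List (Zd (D + 1))),
        pl.length ≤ 2 * (D + 1) * (KK m + 2) ^ D + c0 + 20 →
        θ ^ a ≤ (perc (D + 1) p).real (Apath (X1 (D + 1) (KK m) x y).E pl) := by
      intro x y pl hpl
      refine le_trans ?_ (Apath_lower p hp0 hp1 _ pl)
      refine pow_le_pow_of_le_one hθ0.le hθ1 ?_
      have h1 : (KK m + 2) ^ D ≤ (KK m + 4) ^ D := Nat.pow_le_pow_left (by omega) D
      calc 2 * (D + 1) * pl.length ≤ 2 * (D + 1) * (2 * (D + 1) * (KK m + 2) ^ D + c0 + 20) :=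
            Nat.mul_le_mul_left _ hpl
        _ ≤ 2 * (D + 1) * (2 * (D + 1) * (KK m + 4) ^ D + c0 + 20) := by
            refine Nat.mul_le_mul_left _ ?_
            have := Nat.mul_le_mul_left (2 * (D + 1)) h1
            omega
        _ = a := by rw [ha]; ring
    have hα2 : θ ^ a ≤ (perc (D + 1) p).real (SR (D + 1) (KK m)) := by
      refine le_trans ?_ (SR_lower (by omega) p hp0 hp1 (KK m))
      refine pow_le_pow_of_le_one hθ0.le hθ1 ?_
      have : D + 1 - 1 = D := by omega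
      rw [this, ha]
      exact Nat.le_add_right _ _
    obtain ⟨q, hq, r, hr⟩ := STG D m hD hm2 p hp0 hp1 (θ ^ a) hα hα1 hα2
      (2 ^ (n / (2 * (D + 1)))) (Nat.one_le_two_pow) Q hQ hQ0 (1 / ((m : ℝ) + 1)) (by positivity)
    refine ⟨q, r, hQn q hq, ?_⟩
    have hsub : {ω | ω ∈ (X2 (D + 1) (KK m)).G ∧
        ∃ u, HarC r ω u ∧ ∃ e ∈ (X2 (D + 1) (KK m)).E, ω e = true ∧
          (u e.1 : ZMod q) ≠ u (hd e)} ⊆
        {ω | ω ∈ (X2 (D + 1) (KK m)).G ∧ ω ∉ SR (D + 1) (KK m) ∧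
        ∃ u, HarC r ω u ∧ ∃ e ∈ (X2 (D + 1) (KK m)).E, ω e = true ∧
          (u e.1 : ZMod q) ≠ u (hd e)} ∪ SR (D + 1) (KK m) := by
      rintro ω ⟨h1, h2⟩
      by_cases h3 : ω ∈ SR (D + 1) (KK m)
      · exact Or.inr h3
      · exact Or.inl ⟨h1, h3, h2⟩
    refine (measureReal_mono hsub).trans ((measureReal_union_le _ _).trans ?_)
    refine (add_le_add hr (SR_upper (by omega) p hp0 hp1 (KK m))).trans ?_
    rw [hf]
    have hcF : ((Fc (D + 1) (KK m)).card : ℝ) ≤ 2 * ((D : ℝ) + 1) * ((KK m : ℝ) + 4) ^ D := by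
      have := Fc_card (D + 1) (KK m) (by omega)
      have h1 : D + 1 - 1 = D := by omega
      rw [h1] at this
      calc ((Fc (D + 1) (KK m)).card : ℝ) ≤ ((2 * (D + 1) * (KK m + 4) ^ D : ℕ) : ℝ) := by
            exact_mod_cast this
        _ = _ := by push_cast; ring
    have hQc' : (2 : ℝ) ^ n ≤ Q.card := by exact_mod_cast hQc
    have hlog2 : 0 < Real.log 2 := Real.log_pos one_lt_two
    have hlog4 : (0 : ℝ) ≤ Real.log (4 * ((D : ℝ) + 1)) := by
      apply Real.log_nonneg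
      nlinarith [(Nat.cast_nonneg D : (0 : ℝ) ≤ D)]
    have hN2 : ((2 ^ (n / (2 * (D + 1))) : ℕ) : ℝ) = (2 : ℝ) ^ (n / (2 * (D + 1))) := by
      push_cast; ring
    have t1 : 2 * ((D + 1 : ℕ) : ℝ) * ((KK m + 6 : ℕ) : ℝ) ^ D /
        (θ ^ a * ((2 ^ (n / (2 * (D + 1))) : ℕ) : ℝ)) =
        (2 * (D + 1) * (KK m + 6 : ℝ) ^ D) / (θ ^ a * 2 ^ (n / (2 * (D + 1)))) := by
      rw [hN2]; push_cast; ring
    have hF0 : (0 : ℝ) ≤ ((Fc (D + 1) (KK m)).card : ℝ) := Nat.cast_nonneg _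
    have t2 : ((((2 ^ (n / (2 * (D + 1))) : ℕ) : ℝ)) ^ (D + 1) *
        ((Fc (D + 1) (KK m)).card : ℝ) + 1) *
          ((((Fc (D + 1) (KK m)).card : ℝ) + 1) *
            (((KK m + 6 : ℕ) : ℝ) ^ (D + 1) * Real.log (4 * ((D + 1 : ℕ) : ℝ))) /
            (Q.card * Real.log 2)) / θ ^ a ≤
        (((2 : ℝ) ^ (n / (2 * (D + 1)))) ^ (D + 1) * (2 * (D + 1) * (KK m + 4) ^ D) + 1) *
        ((2 * (D + 1) * (KK m + 4) ^ D + 1) * (KK m + 6) ^ (D + 1) * Real.log (4 * (D + 1)) /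
          (2 ^ n * Real.log 2)) / θ ^ a := by
      rw [hN2]
      push_cast
      refine div_le_div_of_nonneg_right ?_ hα.le
      refine mul_le_mul ?_ ?_ (by positivity) (by positivity)
      · have := mul_le_mul_of_nonneg_left hcF
          (by positivity : (0 : ℝ) ≤ ((2 : ℝ) ^ (n / (2 * (D + 1)))) ^ (D + 1))
        linarith
      · refine div_le_div₀ (by positivity) ?_ (by positivity)
          (mul_le_mul_of_nonneg_right hQc' hlog2.le)
        have h1 : ((Fc (D + 1) (KK m)).card : ℝ) + 1 ≤ 2 * ((D : ℝ) + 1) * ((KK m : ℝ) + 4) ^ D + 1 := by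
          linarith
        have h2 := mul_le_mul_of_nonneg_right h1
          (by positivity : (0 : ℝ) ≤ ((KK m : ℝ) + 6) ^ (D + 1) * Real.log (4 * ((D : ℝ) + 1)))
        calc _ ≤ _ := h2
          _ = _ := by ring
    rw [t1]
    linarith
  have hf0 : Tendsto f atTop (𝓝 0) := by
    have h1 := asym1 D hD θ hθ0 hθ1
    have h2 := asym2 D hD θ hθ0 hθ1
    have h3 : Tendsto (fun m : ℕ => 1 / ((m : ℝ) + 1)) atTop (𝓝 0) :=
      tendsto_one_div_add_atTop_nhds_zero_nat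
    have h4 : Tendsto (fun m : ℕ => (1 - p) ^ (KK m)) atTop (𝓝 0) := by
      have h5 : Tendsto KK atTop atTop := by
        refine tendsto_atTop_mono (fun m => ?_) tendsto_id
        show m ≤ KK m
        rw [KK]; omega
      exact (tendsto_pow_atTop_nhds_zero_of_lt_one (by linarith) (by linarith)).comp h5
    have := ((h3.add h1).add h2).add h4
    simpa [hf] using this
  choose! q r hqr1 hqr2 using key
  refine ⟨q, r, ?_, ?_⟩
  · filter_upwards [eventually_ge_atTop (max n0 4)] with m hm using hqr1 m hm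
  · refine squeeze_zero' (Eventually.of_forall fun m => measureReal_nonneg) ?_ hf0
    filter_upwards [eventually_ge_atTop (max n0 4)] with m hm using hqr2 m hm

theorem main3 (D : ℕ) (hD : 1 ≤ D) (p : ℝ) (hp0 : 0 < p) (hp1 : p < 1) :
    ∀ᵐ ω ∂(perc (D + 1) p), ∀ u : Zd (D + 1) → ℤ, (∀ x, Lap ω u x = 0) →
      ∀ e, ω e = true → u (hd e) = u e.1 := by
  obtain ⟨qs, rs, h1, h2⟩ := main1 D hD p hp0 hp1
  exact main2 D hD p hp0 hp1 qs rs h1 h2

end Pool.Agent.TH974.IHA
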