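import Mathlib

set_option autoImplicit false

open Finset MeasureTheory

/-! Project IH (integer-valued harmonic functions on percolation clusters): basic definitions. -/

namespace Pool.Agent.TH974.IH

/-- vertices of `ℤ^d` -/
abbrev Zd (d : ℕ) := Fin d → ℤ

/-- edges of `ℤ^d`: `(x, i)` is the edge `{x, x + e_i}` -/
abbrev Ed (d : ℕ) := Zd d × Fin d

/-- environments: `ω e = true` means that `e` is open -/
abbrev Env (d : ℕ) := Ed d → Bool

/-- the second endpoint of an edge -/
def hd {d : ℕ} (e : Ed d) : Zd d := e.1 + Pi.single e.2 1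

/-- the law of one edge -/
noncomputable def bern (p : ℝ) : Measure Bool :=
  ENNReal.ofReal p • Measure.dirac true + ENNReal.ofReal (1 - p) • Measure.dirac false

/-- Bernoulli bond percolation with parameter `p` -/
noncomputable def perc (d : ℕ) (p : ℝ) : Measure (Env d) := Measure.infinitePi fun _ => bern p

/-- the Laplacian of the open subgraph -/
def Lap {d : ℕ} {R : Type*} [CommRing R] (ω : Env d) (u : Zd d → R) (x : Zd d) : R :=
  ∑ i : Fin d, ((if ω (x, i) = true then u (x + Pi.single i 1) - u x else 0) +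
    (if ω (x - Pi.single i 1, i) = true then u (x - Pi.single i 1) - u x else 0))

/-- net flow into `x` through the open edges of the finite set `E` -/
def flx {d : ℕ} {R : Type*} [CommRing R] (E : Finset (Ed d)) (ω : Env d) (u : Zd d → R)
    (x : Zd d) : R :=
  ∑ e ∈ E, if ω e = true then
    ((if e.1 = x then u (hd e) - u x else 0) + (if hd e = x then u e.1 - u x else 0)) else 0

/-- the event `A` only depends on the edges in `F` -/
def Dep {d : ℕ} (F : Set (Ed d)) (A : Set (Env d)) : Prop :=
  ∀ ω ω' : Env d, (∀ e ∈ F, ω e = ω' e) → (ω ∈ A ↔ ω' ∈ A)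

/-- shift of the environment: the origin is moved to `z` -/
def sh {d : ℕ} (z : Zd d) (ω : Env d) : Env d := fun e => ω (e.1 + z, e.2)

/-- the cube `[a, b]^d` -/
noncomputable def cube (d : ℕ) (a b : ℤ) : Finset (Zd d) := Fintype.piFinset fun _ => Finset.Icc a b

/-- `u` is harmonic at all vertices of the cube `[-r, r]^d` -/
def HarC {d : ℕ} (r : ℕ) (ω : Env d) (u : Zd d → ℤ) : Prop :=
  ∀ x ∈ cube d (-(r : ℤ)) r, Lap ω u x = 0

/-- `u` is constant modulo `q` on `T`, and the flow through `E` vanishes modulo `q` at each vertex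
of `T` -/
def Flat {d : ℕ} (q : ℕ) (ω : Env d) (T : Finset (Zd d)) (E : Finset (Ed d)) (u : Zd d → ℤ) :
    Prop :=
  (∀ x ∈ T, ∀ y ∈ T, (u x : ZMod q) = u y) ∧ ∀ x ∈ T, ((flx E ω u x : ℤ) : ZMod q) = 0

/-- the edges with both endpoints in the cube `[a, b]^d` -/
def cedges (d : ℕ) (a b : ℤ) : Set (Ed d) := {e | e.1 ∈ cube d a b ∧ hd e ∈ cube d a b}

/-- `x` and `y` are joined by open edges in `F` -/
def Con {d : ℕ} (F : Set (Ed d)) (ω : Env d) : Zd d → Zd d → Prop :=
  Relation.ReflTransGen fun x y => ∃ e ∈ F, ω e = true ∧ ((e.1 = x ∧ hd e = y) ∨ (e.1 = y ∧ hd e = x))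

/-- local data of a box contained in the cell `[0, L)^d`: the vertices `V`, the terminals `T`, the
edges `E` which are changed, and the background event `G` -/
structure Loc (d : ℕ) where
  L : ℕ
  V : Finset (Zd d)
  T : Finset (Zd d)
  E : Finset (Ed d)
  G : Set (Env d)

structure Loc.OK {d : ℕ} (X : Loc d) : Prop where
  TV : X.T ⊆ X.V
  VL : X.V ⊆ cube d 1 (X.L - 2)
  EV : ∀ e ∈ X.E, e.1 ∈ X.V ∧ hd e ∈ X.V
  Gdep : Dep (cedges d 0 (X.L - 1) \ (X.E : Set (Ed d))) X.G
  Gcl : ∀ ω ∈ X.G, ∀ e, e ∉ X.E → ((e.1 ∈ X.V ∧ e.1 ∉ X.T) ∨ (hd e ∈ X.V ∧ hd e ∉ X.T)) →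
    ω e = false

/-- the corner of the cell with index `z` -/
def pos {d N : ℕ} (L : ℕ) (z : Fin d → Fin N) : Zd d := fun i => (L : ℤ) * ((z i : ℕ) : ℤ)

/-! ### harmonic functions on the finite domain `D` with interior `B`, as functions on `D` -/

/-- extension by zero -/
noncomputable def ext {d : ℕ} {R : Type*} [CommRing R] (D : Finset (Zd d)) (w : D → R) : Zd d → R :=
  open Classical in fun x => if h : x ∈ D then w ⟨x, h⟩ else 0

/-- harmonic functions -/
noncomputable def WW {d : ℕ} (R : Type*) [CommRing R] (D B : Finset (Zd d)) (ω : Env d) :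
    Submodule R (D → R) where
  carrier := {w | ∀ x ∈ B, Lap ω (ext D w) x = 0}
  add_mem' := by
    intro a b ha hb x hx
    have h : Lap ω (ext D (a + b)) x = Lap ω (ext D a) x + Lap ω (ext D b) x := by
      have he : ext D (a + b) = ext D a + ext D b := by
        funext y
        by_cases h : y ∈ D <;> simp [ext, h]
      rw [he]
      simp only [Lap, ← Finset.sum_add_distrib, Pi.add_apply]
      refine Finset.sum_congr rfl fun i _ => ?_
      split_ifs <;> ring
    rw [h, ha x hx, hb x hx, add_zero]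
  zero_mem' := by
    intro x _
    have he : ext D (0 : D → R) = 0 := by
      funext y
      by_cases h : y ∈ D <;> simp [ext, h]
    rw [he]
    simp [Lap]
  smul_mem' := by
    intro c a ha x hx
    have h : Lap ω (ext D (c • a)) x = c * Lap ω (ext D a) x := by
      have he : ext D (c • a) = fun y => c * ext D a y := by
        funext y
        by_cases h : y ∈ D <;> simp [ext, h]
      rw [he]
      simp only [Lap, Finset.mul_sum]
      refine Finset.sum_congr rfl fun i _ => ?_
      split_ifs <;> ring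
    rw [h, ha x hx, mul_zero]

/-- functions which are constant along the open edges inside `D` -/
def CC {d : ℕ} (R : Type*) [CommRing R] (D : Finset (Zd d)) (ω : Env d) :
    Submodule R (D → R) where
  carrier := {w | ∀ x y : D, ∀ e : Ed d, ω e = true → e.1 = x → hd e = y → w x = w y}
  add_mem' := by
    intro a b ha hb x y e h1 h2 h3
    simp only [Pi.add_apply, ha x y e h1 h2 h3, hb x y e h1 h2 h3]
  zero_mem' := by
    intro x y e _ _ _
    rfl
  smul_mem' := by
    intro c a ha x y e h1 h2 h3
    simp only [Pi.smul_apply, ha x y e h1 h2 h3]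

/-- reductions modulo `q` of the integer-valued harmonic functions -/
noncomputable def HH {d : ℕ} (q : ℕ) (D B : Finset (Zd d)) (ω : Env d) :
    Submodule (ZMod q) (D → ZMod q) :=
  Submodule.span (ZMod q) {w | ∃ u : Zd d → ℤ, (∀ x ∈ B, Lap ω u x = 0) ∧
    ∀ y : D, w y = ((u y : ℤ) : ZMod q)}

/-- the matrix of the Laplacian, rows `B`, columns `D` -/
noncomputable def MM {d : ℕ} (D B : Finset (Zd d)) (ω : Env d) : Matrix B D ℤ :=
  open Classical in fun x y => Lap ω (fun v => if v = (y : Zd d) then (1 : ℤ) else 0) x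

/-- rank deficit modulo `q` -/
noncomputable def dfc {d : ℕ} (q : ℕ) (D B : Finset (Zd d)) (ω : Env d) : ℕ :=
  ((MM D B ω).map (Int.cast : ℤ → ℚ)).rank - ((MM D B ω).map (Int.cast : ℤ → ZMod q)).rank

end Pool.Agent.TH974.IH
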