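import Pool.Agent.TH974.IH.Net

set_option autoImplicit false

open Finset MeasureTheory

/-! The geometry of the boxes: definitions. -/

namespace Pool.Agent.TH974.IH

/-- scale of the planar gadgets -/
def c0 : ℕ := 9172800

/-- parameters of the planar gadgets -/
def P0 : Par := ⟨163800, 54600, 163800, by norm_num, by norm_num, by norm_num⟩

/-- the side of the inner cube -/
def KK (m : ℕ) : ℕ := 1310400 * m

/-- the room `[2, K+3]^d` -/
noncomputable def Rm (d K : ℕ) : Finset (Zd d) := cube d 2 (K + 3)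

/-- number of extreme coordinates -/
def nex {d : ℕ} (K : ℕ) (x : Zd d) : ℕ :=
  (Finset.univ.filter fun i => x i = 1 ∨ x i = (K : ℤ) + 4).card

/-- the faces: points of `[1, K+4]^d` with exactly one extreme coordinate -/
noncomputable def Fc (d K : ℕ) : Finset (Zd d) := (cube d 1 (K + 4)).filter fun x => nex K x = 1

/-- edges with both endpoints in the faces -/
def EF (d K : ℕ) : Set (Ed d) := {e | e.1 ∈ Fc d K ∧ hd e ∈ Fc d K}

/-- edges between the room and the faces -/
def EX (d K : ℕ) : Set (Ed d) :=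
  {e | (e.1 ∈ Rm d K ∧ hd e ∈ Fc d K) ∨ (e.1 ∈ Fc d K ∧ hd e ∈ Rm d K)}

/-- the bridges: edges between a corner `c` (coordinates `i`, `j` extreme, the other coordinates
equal to `2`) and its inward neighbour in the direction `i` -/
def EB (d K : ℕ) : Set (Ed d) :=
  {e | ∃ (i j : Fin d) (a b : ℤ), i ≠ j ∧ (a = 1 ∨ a = (K : ℤ) + 4) ∧ (b = 1 ∨ b = (K : ℤ) + 4) ∧
    ((a = 1 ∧ e = (Function.update (Function.update (fun _ => 2) i 1) j b, i)) ∨
      (a = (K : ℤ) + 4 ∧
        e = (Function.update (Function.update (fun _ => 2) i ((K : ℤ) + 3)) j b, i)))}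

/-- the edges with endpoints in `V` -/
noncomputable def eds {d : ℕ} (V : Finset (Zd d)) : Finset (Ed d) :=
  (V ×ˢ (Finset.univ : Finset (Fin d))).filter fun e => hd e ∈ V

/-- the large box: the faces are open, the room is isolated in the event `SR` -/
noncomputable def X2 (d K : ℕ) : Loc d where
  L := K + 6
  V := Rm d K ∪ Fc d K
  T := Fc d K
  E := eds (Rm d K ∪ Fc d K)
  G := {ω | ∀ e ∈ EB d K, ω e = true}

/-- the room is isolated and the faces are open -/
def SR (d K : ℕ) : Set (Env d) := {ω | (∀ e ∈ EF d K, ω e = true) ∧ ∀ e ∈ EX d K, ω e = false}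

/-- the box with two terminals `x`, `y`: the room with the two edges which join it to `x`, `y` -/
noncomputable def X1 (d K : ℕ) (x y : Zd d) : Loc d where
  L := K + 6
  V := Rm d K ∪ {x, y}
  T := {x, y}
  E := (eds (Rm d K ∪ {x, y})).filter fun e => e.1 ∈ Rm d K ∨ hd e ∈ Rm d K
  G := {ω | (∀ e ∈ EB d K, ω e = true) ∧ (∀ e ∈ EF d K, ω e = true) ∧
    ∀ e ∈ EX d K, e.1 ≠ x → hd e ≠ x → e.1 ≠ y → hd e ≠ y → ω e = false}

/-- the edge `e` joins two consecutive vertices of the list `p` -/
def onp {d : ℕ} (p : List (Zd d)) (e : Ed d) : Prop :=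
  [e.1, hd e] <:+: p ∨ [hd e, e.1] <:+: p

/-- the path `p` is open, and the other edges of `E` which touch it are closed -/
def Apath {d : ℕ} (E : Finset (Ed d)) (p : List (Zd d)) : Set (Env d) :=
  {ω | ∀ e ∈ E, (onp p e → ω e = true) ∧ (¬ onp p e → (e.1 ∈ p ∨ hd e ∈ p) → ω e = false)}

/-- a path from `x` to `y` with the other vertices in `V` -/
structure IsP {d : ℕ} (V : Finset (Zd d)) (p : List (Zd d)) (x y : Zd d) : Prop where
  nodup : p.Nodup
  chain : List.IsChain adjd p
  head : p.head? = some x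
  last : p.getLast? = some y
  len : 3 ≤ p.length
  mem : ∀ v ∈ p, v = x ∨ v = y ∨ v ∈ V

/-- the open edges of `E` in the environment `ω` form a network between `x` and `y` with effective
resistance `s`, in which integer-valued functions have currents divisible by `q` -/
def Gad {d : ℕ} (q s : ℕ) (E : Finset (Ed d)) (V : Finset (Zd d)) (x y : Zd d) (ω : Env d) : Prop :=
  ∀ u : Zd d → ℤ, (∀ v ∈ V, v ≠ x → v ≠ y → flx E ω u v = 0) →
    flx E ω u y = - flx E ω u x ∧ u y - u x = s * flx E ω u x ∧ (q : ℤ) ∣ flx E ω u x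

end Pool.Agent.TH974.IH
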