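import Pool.Agent.TH974.IH.Base

set_option autoImplicit false

open Finset

/-! Two-terminal resistor networks: definitions. -/

namespace Pool.Agent.TH974.IH

/-- net flow into `x` of the function `u` through the edges `E` (each edge is listed once, in one
of its two orientations) -/
def dv {V : Type*} [DecidableEq V] {R : Type*} [CommRing R] (E : Finset (V × V)) (u : V → R)
    (x : V) : R :=
  ∑ e ∈ E, ((if e.1 = x then u e.2 - u x else 0) + (if e.2 = x then u e.1 - u x else 0))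

/-- `E` is a set of edges between adjacent points of `S`, each listed in one orientation only -/
structure Nw {V : Type*} (adj : V → V → Prop) (S : Set V) (E : Finset (V × V)) : Prop where
  mem : ∀ e ∈ E, e.1 ∈ S ∧ e.2 ∈ S
  adj : ∀ e ∈ E, adj e.1 e.2
  anti : ∀ x y, (x, y) ∈ E → (y, x) ∉ E

/-- the network `E` with vertices in `S` and terminals `a`, `b` has effective resistance `r`:
every function which is harmonic at the vertices of `S` other than `a`, `b` satisfies Ohm's law -/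
def OP {V : Type*} [DecidableEq V] (adj : V → V → Prop) (S : Set V) (E : Finset (V × V)) (a b : V)
    (r : ℚ) : Prop :=
  Nw adj S E ∧ a ∈ S ∧ b ∈ S ∧ a ≠ b ∧
    ∀ u : V → ℚ, (∀ x ∈ S, x ≠ a → x ≠ b → dv E u x = 0) →
      dv E u b = - dv E u a ∧ u b - u a = r * dv E u a

/-- moreover, for integer-valued functions the current is divisible by `q` -/
def GD {V : Type*} [DecidableEq V] (adj : V → V → Prop) (S : Set V) (E : Finset (V × V)) (a b : V)
    (r : ℚ) (q : ℕ) : Prop :=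
  OP adj S E a b r ∧ ∀ u : V → ℤ, (∀ x ∈ S, x ≠ a → x ≠ b → dv E u x = 0) → (q : ℤ) ∣ dv E u a

/-- adjacency in `ℤ²` -/
def adj2 (x y : ℤ × ℤ) : Prop := |x.1 - y.1| + |x.2 - y.2| = 1

/-- adjacency in `ℤ^d` -/
def adjd {d : ℕ} (x y : Zd d) : Prop :=
  ∃ i : Fin d, y = x + Pi.single i 1 ∨ x = y + Pi.single i 1

/-- parallel composition of two resistors -/
def par (a b : ℚ) : ℚ := a * b / (a + b)

/-- resistance of a ladder: pairs (series, rung), then the closing resistor -/
def lad : List (ℕ × ℕ) → ℕ → ℚ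
  | [], β => β
  | (σ, τ) :: l, β => par τ (σ + lad l β)

/-- the parameters of the planar ladder: cells of width `2 * mb`, height `w`, rails at distance
`2 * mH`, teeth of height at most `w - 1 - 2 * mH` -/
structure Par where
  mb : ℕ
  mH : ℕ
  w : ℕ
  hmb : 1 ≤ mb
  hmH : 1 ≤ mH
  hw : 2 * mH + 2 ≤ w

/-- admissible lengths of series elements -/
def Par.okS (P : Par) (σ : ℕ) : Prop :=
  Even σ ∧ 4 * P.mb + 2 * P.w + 6 ≤ σ ∧ σ ≤ 4 * P.mb + 2 * (P.mb * (P.w - 1 - 2 * P.mH))

/-- admissible lengths of rungs -/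
def Par.okT (P : Par) (τ : ℕ) : Prop :=
  Even τ ∧ 2 * P.mH ≤ τ ∧ τ ≤ 2 * P.mH + 2 * ((P.mH - 1) * (2 * P.mb - 1))

/-- the region filled by `J` rows of `C` cells -/
def Par.Reg (P : Par) (J C : ℕ) : Set (ℤ × ℤ) :=
  {x | 0 ≤ x.2 ∧ x.2 < (J * P.w : ℕ) ∧ -2 ≤ x.1 ∧ x.1 ≤ ((C * (2 * P.mb) : ℕ) : ℤ) + 2 ∧
    (x.2 < (P.w : ℤ) → 0 ≤ x.1)}

end Pool.Agent.TH974.IH
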